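import Pool.Agent.H986R2.TwoP.Model

open Finset Filter Topology

namespace Pool.Agent.H986R2.TwoP

theorem exp_neg_div_le {x : ℝ} (_h0 : 0 ≤ x) (h1 : x < 1) : Real.exp (-(x / (1 - x))) ≤ 1 - x := by
  have h2 : 0 < 1 - x := by linarith
  rw [Real.exp_neg, inv_le_comm₀ (Real.exp_pos _) h2]
  have := Real.add_one_le_exp (x / (1 - x))
  refine le_trans ?_ this
  rw [inv_le_iff_one_le_mul₀ h2]
  field_simp
  linarith

theorem tendsto_m (r : ℝ) (hr : 0 ≤ r) :
    Tendsto (fun n : ℕ => ((⌊r * (n : ℝ)⌋₊ : ℕ) : ℝ) / n) atTop (𝓝 r) :=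
  (tendsto_nat_floor_mul_div_atTop hr).comp tendsto_natCast_atTop_atTop

theorem tendsto_T (r : ℝ) (hr : 0 ≤ r) (c : ℝ) :
    Tendsto (fun n : ℕ => (((3 * ⌊r * (n : ℝ)⌋₊ : ℕ) : ℝ) - c) / n) atTop (𝓝 (3 * r)) := by
  have h1 := (tendsto_m r hr).const_mul 3
  have h2 : Tendsto (fun n : ℕ => c / (n : ℝ)) atTop (𝓝 0) :=
    tendsto_const_nhds.div_atTop tendsto_natCast_atTop_atTop
  have h3 := h1.sub h2
  rw [sub_zero] at h3
  refine h3.congr (fun n => ?_)
  push_cast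
  rw [sub_div, mul_div_assoc]

theorem tendsto_c2 (r : ℝ) (hr : 0 ≤ r) :
    Tendsto (fun n : ℕ => ((3 * ⌊r * (n : ℝ)⌋₊).choose 2 : ℝ) / n ^ 2) atTop
      (𝓝 ((3 * r) * (3 * r) / 2)) := by
  have h1 := ((tendsto_T r hr 0).mul (tendsto_T r hr 1)).div_const 2
  refine h1.congr (fun n => ?_)
  rw [Nat.cast_choose_two]
  rw [sub_zero, div_mul_div_comm, div_div, div_div]
  congr 1
  ring

theorem tendsto_c3 (r : ℝ) (hr : 0 < r) :
    Tendsto (fun n : ℕ => ((3 * ⌊r * (n : ℝ)⌋₊).choose 3 : ℝ) / n ^ 3) atTop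
      (𝓝 ((3 * r) * (3 * r) / 2 * (3 * r) / 3)) := by
  have h1 := ((tendsto_c2 r hr.le).mul (tendsto_T r hr.le 2)).div_const 3
  have h2 : Tendsto (fun n : ℕ => ⌊r * (n : ℝ)⌋₊) atTop atTop :=
    tendsto_nat_floor_atTop.comp (Tendsto.const_mul_atTop hr tendsto_natCast_atTop_atTop)
  refine h1.congr' ?_
  filter_upwards [h2.eventually_ge_atTop 1] with n hn
  have h3 := Nat.choose_succ_right_eq (3 * ⌊r * (n : ℝ)⌋₊) 2
  have h4 : (((3 * ⌊r * (n : ℝ)⌋₊).choose 3 : ℕ) : ℝ) * 3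
      = ((3 * ⌊r * (n : ℝ)⌋₊).choose 2 : ℝ) * (((3 * ⌊r * (n : ℝ)⌋₊ : ℕ) : ℝ) - 2) := by
    have e : (((3 * ⌊r * (n : ℝ)⌋₊ - 2 : ℕ)) : ℝ) = ((3 * ⌊r * (n : ℝ)⌋₊ : ℕ) : ℝ) - 2 := by
      rw [Nat.cast_sub (by omega)]; norm_num
    rw [← e]
    exact_mod_cast h3
  rw [div_mul_div_comm, ← h4, div_div]
  have h5 : ((n : ℝ) ^ 2 * n * 3) = (n : ℝ) ^ 3 * 3 := by ring
  rw [h5]
  rw [mul_div_mul_right _ _ (by norm_num : (3 : ℝ) ≠ 0)]

theorem probSat_nonneg (n : ℕ) (p : ℝ) (hp0 : 0 ≤ p) (hp1 : p ≤ 1) (m : ℕ) :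
    0 ≤ probSat n m p := by
  unfold probSat
  apply sum_nonneg
  intro f _
  apply mul_nonneg (prod_nonneg (fun i _ => wt_nonneg n p hp0 hp1 _))
  split_ifs <;> norm_num

section

variable {J : Type*} [Fintype J]

/-- rates -/
noncomputable def om (p : ℝ) (b : J → ℝ) : J ⊕ J × J → ℝ
  | Sum.inl j => 2 * (1 - p) / 3 * b j
  | Sum.inr j => p * (b j.1 * b j.2)

/-- values -/
noncomputable def uu (v : J → ℝ) : J ⊕ J × J → ℝ
  | Sum.inl j => v j
  | Sum.inr j => min (v j.1) (v j.2)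

/-- The functional. -/
noncomputable def Psi (p r : ℝ) (b v : J → ℝ) : ℝ :=
  Real.exp (-(3 * r * ∑ t, om p b t)) *
      ((3 * r) * (3 * r) / 2 * (1 / 2 * ∑ s, ∑ t, om p b s * om p b t * min (uu v s) (uu v t))
      + (3 * r) * (3 * r) / 2 * (3 * r) / 3 * (3 / 4 * ∑ a, ∑ s, ∑ t,
          om p b a * om p b s * om p b t * min (uu v a) (uu v s + uu v t)))
    - r * ((1 - p) * (∑ i, ∑ j, b i * b j * min (v i) (v j))
        + p * (2 * ∑ i, ∑ j, ∑ k, b i * b j * b k * min (v i) (min (v j) (v k))))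

/-- The finite-size lower bound for the mean minimal number of violated clauses. -/
theorem mean_lower (n : ℕ) (hn : 3 ≤ n) (p : ℝ) (hp0 : 0 ≤ p) (hp1 : p ≤ 1) (b v : J → ℝ)
    (hb : ∀ j, 0 ≤ b j) (hv0 : ∀ j, 0 ≤ v j) (hv1 : ∀ j, v j ≤ 1)
    (hW : ∑ t, om p b t ≤ 1) (m : ℕ) (hm : 1 ≤ m) (a : ℝ) (ha : 0 < a) :
    (n : ℝ) * (((3 * m).choose 2 : ℝ) * (1 / n) ^ 2 * (1 - (∑ t, om p b t) / n) ^ (3 * m) *
        (1 / 2 * ∑ s, ∑ t, om p b s * om p b t * min (uu v s) (uu v t))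
      + ((3 * m).choose 3 : ℝ) * (1 / n) ^ 3 * (1 - (∑ t, om p b t) / n) ^ (3 * m) *
        (3 / 4 * ∑ a, ∑ s, ∑ t,
          om p b a * om p b s * om p b t * min (uu v a) (uu v s + uu v t)))
      - m * ((1 - p) * (∑ i, ∑ j, b i * b j * min (v i) (v j) + 1 / (2 * n))
        + p * (2 * ∑ i, ∑ j, ∑ k, b i * b j * b k * min (v i) (min (v j) (v k)) + 3 / (2 * n)))
      - m / (3 * a) - a / 2 ≤ (AA n p ^ m) mn 0 := by
  have hn0 : (0 : ℝ) < n := by exact_mod_cast (by omega : 0 < n)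
  have hn1 : (1 : ℝ) ≤ n := by exact_mod_cast (by omega : 1 ≤ n)
  have hom : ∀ t, 0 ≤ om p b t := by
    have : 0 ≤ 1 - p := by linarith
    rintro (j | j)
    · have := hb j
      simp only [om]; positivity
    · have := hb j.1
      have := hb j.2
      simp only [om]; positivity
  have huu : ∀ t, 0 ≤ uu v t := by
    rintro (j | j)
    · exact hv0 j
    · exact le_min (hv0 _) (hv0 _)
  have h1 := lazy_le n hn p hp0 hp1 m a ha
  have hwS : wS n p b = fun x : Lit n × (J ⊕ J × J) => om p b x.2 / (2 * n) := by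
    funext x
    rcases x with ⟨l, j | j⟩
    · simp only [wS, om]; ring
    · simp only [wS, om]; ring
  have hsS : sS n v = fun x : Lit n × (J ⊕ J × J) => pen x.1 (uu v x.2) := by
    funext x
    rcases x with ⟨l, j | j⟩
    · simp only [sS, uu]
    · simp only [sS, uu]
  have hw0 : ∀ a, 0 ≤ wS n p b a := by
    intro a
    rw [hwS]
    exact div_nonneg (hom _) (by positivity)
  have hw1 : ∑ a, wS n p b a ≤ 1 := by
    rw [hwS, Fintype.sum_prod_type (f := fun x : Lit n × (J ⊕ J × J) => om p b x.2 / (2 * n))]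
    simp only [sum_const, card_univ, nsmul_eq_mul, ← sum_div]
    rw [card_lit]
    push_cast
    rw [mul_div_assoc', mul_comm, mul_div_assoc, div_self (by positivity), mul_one]
    exact hW
  have hc0 : ∀ c : Clause n, 0 ≤ 1 / 3 * wt n p c := fun c =>
    mul_nonneg (by norm_num) (wt_nonneg n p hp0 hp1 c)
  have hc1 : ∑ c : Clause n, 1 / 3 * wt n p c ≤ 1 := by
    rw [← mul_sum, wt_sum n hn]; norm_num
  have h2 := interp (fun c : Clause n => 1 / 3 * wt n p c) viol (wS n p b) (sS n v) hc0 hc1 hw0 hw1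
    mn _ (step_ineq hn p hp0 hp1 b v hb hv0 hv1) (3 * m) 0
  have h3 := sep_pow (n := n) (om p b) (uu v) (3 * m) (fun _ _ => 0)
  rw [sep_zero, ← hwS, ← hsS] at h3
  have h4 := K_pow_lower n (3 * m) (by omega) (by omega) (om p b) (uu v) hom huu (hW.trans hn1)
  rw [Q_two _ _ huu, Q_three _ _ huu] at h4
  have h5 : ∑ _i : Fin n, (K n (om p b) (uu v) ^ (3 * m)) mu (fun _ => 0)
      = n * (K n (om p b) (uu v) ^ (3 * m)) mu 0 := by
    rw [sum_const, card_univ, Fintype.card_fin, nsmul_eq_mul]; rfl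
  rw [h5] at h3
  rw [h3] at h2
  have h6 := mul_le_mul_of_nonneg_left h4 hn0.le
  push_cast at h2
  have h7 : (3 * (m : ℝ)) * (1 / 3 * ((1 - p) * (∑ i, ∑ j, b i * b j * min (v i) (v j) +
      1 / (2 * n)) + p * (2 * ∑ i, ∑ j, ∑ k, b i * b j * b k * min (v i) (min (v j) (v k)) +
        3 / (2 * n))))
      = m * ((1 - p) * (∑ i, ∑ j, b i * b j * min (v i) (v j) + 1 / (2 * n))
        + p * (2 * ∑ i, ∑ j, ∑ k, b i * b j * b k * min (v i) (min (v j) (v k)) +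
          3 / (2 * n))) := by ring
  rw [h7] at h2
  linarith

/-- If the functional is positive then the random formula is unsatisfiable w.h.p. -/
theorem criterion (p r : ℝ) (hp0 : 0 ≤ p) (hp1 : p ≤ 1) (hr : 0 < r) (b v : J → ℝ)
    (hb : ∀ j, 0 ≤ b j) (hv0 : ∀ j, 0 ≤ v j) (hv1 : ∀ j, v j ≤ 1)
    (hW : ∑ t, om p b t ≤ 1) (hpos : 0 < Psi p r b v) :
    Tendsto (fun n : ℕ => probSat n ⌊r * n⌋₊ p) atTop (𝓝 0) := by
  set W := ∑ t, om p b t with hWdef
  set B2 := 1 / 2 * ∑ s, ∑ t, om p b s * om p b t * min (uu v s) (uu v t) with hB2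
  set B3 := 3 / 4 * ∑ a, ∑ s, ∑ t,
          om p b a * om p b s * om p b t * min (uu v a) (uu v s + uu v t) with hB3
  set S2 := ∑ i, ∑ j, b i * b j * min (v i) (v j) with hS2
  set S3 := 2 * ∑ i, ∑ j, ∑ k, b i * b j * b k * min (v i) (min (v j) (v k)) with hS3
  set δ := Psi p r b v with hδ
  have hom : ∀ t, 0 ≤ om p b t := by
    have : 0 ≤ 1 - p := by linarith
    rintro (j | j)
    · have := hb j
      simp only [om]; positivity
    · have := hb j.1
      have := hb j.2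
      simp only [om]; positivity
  have huu : ∀ t, 0 ≤ uu v t := by
    rintro (j | j)
    · exact hv0 j
    · exact le_min (hv0 _) (hv0 _)
  have hB20 : 0 ≤ B2 := by
    rw [hB2]
    apply mul_nonneg (by norm_num)
    refine sum_nonneg fun s _ => sum_nonneg fun t _ => ?_
    exact mul_nonneg (mul_nonneg (hom s) (hom t)) (le_min (huu s) (huu t))
  have hB30 : 0 ≤ B3 := by
    rw [hB3]
    apply mul_nonneg (by norm_num)
    refine sum_nonneg fun a _ => sum_nonneg fun s _ => sum_nonneg fun t _ => ?_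
    exact mul_nonneg (mul_nonneg (mul_nonneg (hom a) (hom s)) (hom t))
      (le_min (huu a) (add_nonneg (huu s) (huu t)))
  have hW0 : 0 ≤ W := sum_nonneg (fun t _ => hom t)
  -- the limit function
  set M : ℕ → ℝ := fun n => ((⌊r * (n : ℝ)⌋₊ : ℕ) : ℝ) / n with hM
  set E : ℕ → ℝ := fun n => Real.exp (-(3 * M n * W / (1 - W / n))) with hE
  set F : ℕ → ℝ := fun n =>
    ((3 * ⌊r * (n : ℝ)⌋₊).choose 2 : ℝ) / n ^ 2 * E n * B2
      + ((3 * ⌊r * (n : ℝ)⌋₊).choose 3 : ℝ) / n ^ 3 * E n * B3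
      - M n * ((1 - p) * (S2 + 1 / 2 * (1 / n)) + p * (S3 + 3 / 2 * (1 / n)))
      - M n / (3 * δ) * (1 / n) - δ / 2 with hF
  have tM : Tendsto M atTop (𝓝 r) := tendsto_m r hr.le
  have t0 : Tendsto (fun n : ℕ => 1 / (n : ℝ)) atTop (𝓝 0) := tendsto_one_div_atTop_nhds_zero_nat
  have tE : Tendsto E atTop (𝓝 (Real.exp (-(3 * r * W)))) := by
    have h1 : Tendsto (fun n : ℕ => W / (n : ℝ)) atTop (𝓝 0) :=
      tendsto_const_nhds.div_atTop tendsto_natCast_atTop_atTop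
    have h2 : Tendsto (fun n : ℕ => 1 - W / (n : ℝ)) atTop (𝓝 1) := by
      have := (tendsto_const_nhds (x := (1 : ℝ))).sub h1
      rwa [sub_zero] at this
    have h3 := ((tM.const_mul 3).mul_const W).div h2 one_ne_zero
    rw [div_one] at h3
    exact (Real.continuous_exp.tendsto _).comp h3.neg
  have tF : Tendsto F atTop (𝓝 (δ - δ / 2)) := by
    have h1 := ((tendsto_c2 r hr.le).mul tE).mul_const B2
    have h2 := ((tendsto_c3 r hr).mul tE).mul_const B3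
    have h3 := (((t0.const_mul (1 / 2)).const_add S2).const_mul (1 - p)).add
      (((t0.const_mul (3 / 2)).const_add S3).const_mul p)
    have h4 := ((tM.div_const (3 * δ)).mul t0)
    have h5 := (((h1.add h2).sub (tM.mul h3)).sub h4).sub_const (δ / 2)
    have e : 3 * r * (3 * r) / 2 * Real.exp (-(3 * r * W)) * B2 +
                3 * r * (3 * r) / 2 * (3 * r) / 3 * Real.exp (-(3 * r * W)) * B3 -
              r * ((1 - p) * (S2 + 1 / 2 * 0) + p * (S3 + 3 / 2 * 0)) -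
            r / (3 * δ) * 0 - δ / 2 = δ - δ / 2 := by
      have e1 : δ = Real.exp (-(3 * r * W)) * ((3 * r) * (3 * r) / 2 * B2
          + (3 * r) * (3 * r) / 2 * (3 * r) / 3 * B3) - r * ((1 - p) * S2 + p * S3) := by
        rw [hδ]; simp only [Psi]; rw [hWdef]
      have e2 : 3 * r * (3 * r) / 2 * Real.exp (-(3 * r * W)) * B2 +
                3 * r * (3 * r) / 2 * (3 * r) / 3 * Real.exp (-(3 * r * W)) * B3 -
              r * ((1 - p) * (S2 + 1 / 2 * 0) + p * (S3 + 3 / 2 * 0)) -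
            r / (3 * δ) * 0 = δ := by
        rw [mul_zero (r / (3 * δ)), e1]; ring
      rw [e2]
    rw [e] at h5
    exact h5
  have hev : ∀ᶠ n in atTop, δ / 4 < F n := tF.eventually_const_lt (by linarith)
  have t1 : Tendsto (fun n => M n * (16 / δ ^ 2) * (1 / (n : ℝ))) atTop (𝓝 0) := by
    have := (tM.mul_const (16 / δ ^ 2)).mul t0
    rwa [mul_zero] at this
  refine tendsto_of_tendsto_of_tendsto_of_le_of_le' tendsto_const_nhds t1
    (Eventually.of_forall fun n => probSat_nonneg n p hp0 hp1 _) ?_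
  have hm1 : ∀ᶠ n : ℕ in atTop, 1 ≤ ⌊r * (n : ℝ)⌋₊ :=
    (tendsto_nat_floor_atTop.comp
      (Tendsto.const_mul_atTop hr tendsto_natCast_atTop_atTop)).eventually_ge_atTop 1
  filter_upwards [hev, hm1, eventually_ge_atTop 3] with n hn1 hn2 hn3
  have hn0 : (0 : ℝ) < n := by exact_mod_cast (by omega : 0 < n)
  have hn3' : (3 : ℝ) ≤ n := by exact_mod_cast hn3
  set m := ⌊r * (n : ℝ)⌋₊ with hm
  have hlow := mean_lower n hn3 p hp0 hp1 b v hb hv0 hv1 hW m hn2 (δ * n) (by positivity)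
  rw [← hWdef, ← hB2, ← hB3, ← hS2, ← hS3] at hlow
  have hx0 : 0 ≤ W / n := by positivity
  have hx1 : W / n < 1 := by
    rw [div_lt_one hn0]; linarith
  have hy : E n ≤ (1 - W / n) ^ (3 * m) := by
    have h1 := exp_neg_div_le hx0 hx1
    have h2 := pow_le_pow_left₀ (Real.exp_pos _).le h1 (3 * m)
    refine le_trans (le_of_eq ?_) h2
    have hD : 1 - W / n ≠ 0 := by linarith
    simp only [hE]
    rw [← Real.exp_nat_mul]
    congr 1
    simp only [hM]
    rw [← hm]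
    generalize 1 - W / (n : ℝ) = D at hD
    push_cast
    field_simp
  have hF1 : (n : ℝ) * F n ≤ (AA n p ^ m) mn 0 := by
    refine le_trans ?_ hlow
    have h1 : (n : ℝ) * (((3 * m).choose 2 : ℝ) * (1 / n) ^ 2 * E n * B2
        + ((3 * m).choose 3 : ℝ) * (1 / n) ^ 3 * E n * B3)
        ≤ (n : ℝ) * (((3 * m).choose 2 : ℝ) * (1 / n) ^ 2 * (1 - W / n) ^ (3 * m) * B2
        + ((3 * m).choose 3 : ℝ) * (1 / n) ^ 3 * (1 - W / n) ^ (3 * m) * B3) := by
      gcongr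
    have h2 : (n : ℝ) * F n = (n : ℝ) * (((3 * m).choose 2 : ℝ) * (1 / n) ^ 2 * E n * B2
        + ((3 * m).choose 3 : ℝ) * (1 / n) ^ 3 * E n * B3)
        - m * ((1 - p) * (S2 + 1 / (2 * n)) + p * (S3 + 3 / (2 * n)))
        - m / (3 * (δ * n)) - δ * n / 2 := by
      simp only [hF, hM]
      rw [← hm]
      field_simp
    rw [h2]
    linarith
  have hE2 : (n : ℝ) * (δ / 4) ≤ (AA n p ^ m) mn 0 :=
    le_trans (mul_le_mul_of_nonneg_left hn1.le hn0.le) hF1
  have h3 := probSat_le n hn3 p hp0 hp1 m ((n : ℝ) * (δ / 4)) (by positivity) hE2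
  refine h3.trans (le_of_eq ?_)
  simp only [hM]
  rw [← hm]
  field_simp
  norm_num

end

end Pool.Agent.H986R2.TwoP
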