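import Mathlib

open Finset Filter Topology

namespace Pool.Agent.H986R2.TwoP

/-- A literal: the variable `x_i` with the truth value `b` that makes the literal true
(`b = true`: the literal is `x_i`, `b = false`: its negation). -/
abbrev Lit (n : ℕ) := Fin n × Bool

/-- The disjunctions `a ∨ b` and `a ∨ b ∨ c` of two or three literals. -/
abbrev Clause (n : ℕ) := (Lit n × Lit n) ⊕ (Lit n × Lit n × Lit n)

/-- The literal `l` is true under the assignment `A`. -/
def Holds {n : ℕ} (A : Fin n → Bool) (l : Lit n) : Prop := A l.1 = l.2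

instance {n : ℕ} (A : Fin n → Bool) (l : Lit n) : Decidable (Holds A l) :=
  inferInstanceAs (Decidable (A l.1 = l.2))

/-- The assignment `A` satisfies the clause. -/
def SatC {n : ℕ} (A : Fin n → Bool) : Clause n → Prop
  | Sum.inl c => Holds A c.1 ∨ Holds A c.2
  | Sum.inr c => Holds A c.1 ∨ Holds A c.2.1 ∨ Holds A c.2.2

/-- The (ordered) pairs of literals on two distinct variables. -/
def two (n : ℕ) : Finset (Lit n × Lit n) := univ.filter (fun c => c.1.1 ≠ c.2.1)

/-- The (ordered) triples of literals on three distinct variables. -/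
def three (n : ℕ) : Finset (Lit n × Lit n × Lit n) :=
  univ.filter (fun c => c.1.1 ≠ c.2.1.1 ∧ c.1.1 ≠ c.2.2.1 ∧ c.2.1.1 ≠ c.2.2.1)

/-- The distribution of one random clause of `F_{n,m}(p)`: with probability `p` a uniform random
3-clause, with probability `1 - p` a uniform random 2-clause (on distinct variables). -/
noncomputable def wt (n : ℕ) (p : ℝ) : Clause n → ℝ
  | Sum.inl c => if c ∈ two n then (1 - p) / (two n).card else 0
  | Sum.inr c => if c ∈ three n then p / (three n).card else 0

open Classical in
/-- The probability that the random formula `F_{n,m}(p)` (the conjunction of `m` independent random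
clauses) is satisfiable. -/
noncomputable def probSat (n m : ℕ) (p : ℝ) : ℝ :=
  ∑ f : Fin m → Clause n, (∏ i, wt n p (f i)) *
    (if ∃ A : Fin n → Bool, ∀ i, SatC A (f i) then 1 else 0)

/-- The critical mixing parameter: the supremum of the `p ∈ [0,1]` such that for every ratio
`r < 1/(1-p)` (that is, `r > 0` and `r (1-p) < 1`) the formula `F_{n,⌊rn⌋}(p)` is satisfiable with
high probability. -/
noncomputable def pc : ℝ :=
  sSup {p : ℝ | 0 ≤ p ∧ p ≤ 1 ∧ ∀ r : ℝ, 0 < r → r * (1 - p) < 1 →
    Tendsto (fun n : ℕ => probSat n ⌊r * n⌋₊ p) atTop (𝓝 1)}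

end Pool.Agent.H986R2.TwoP
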