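import Pool.Agent.H986R2.TwoP.Crit

open Finset Filter Topology

namespace Pool.Agent.H986R2.TwoP

section

variable {J : Type*} [Fintype J]

/-- mean of the minimum of two -/
noncomputable def m2 (q v : J → ℝ) : ℝ := ∑ i, ∑ j, q i * q j * min (v i) (v j)

/-- mean of the minimum of three -/
noncomputable def m3 (q v : J → ℝ) : ℝ :=
  ∑ i, ∑ j, ∑ k, q i * q j * q k * min (v i) (min (v j) (v k))

/-- mean of the minimum of one and the sum of the two others -/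
noncomputable def mB (q v : J → ℝ) : ℝ :=
  ∑ i, ∑ j, ∑ k, q i * q j * q k * min (v i) (v j + v k)

theorem sum_inl_le (f : J ⊕ J × J → ℝ) (hf : ∀ x, 0 ≤ f x) :
    ∑ j, f (Sum.inl j) ≤ ∑ x, f x := by
  rw [Fintype.sum_sum_type]
  have : 0 ≤ ∑ x, f (Sum.inr x) := sum_nonneg (fun x _ => hf _)
  linarith

theorem sum_om (p ρ : ℝ) (q : J → ℝ) (hq1 : ∑ j, q j = 1) :
    ∑ t, om p (fun j => ρ * q j) t = 2 * (1 - p) / 3 * ρ + p * ρ ^ 2 := by
  rw [Fintype.sum_sum_type]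
  simp only [om]
  have h1 : ∑ j, 2 * (1 - p) / 3 * (ρ * q j) = 2 * (1 - p) / 3 * ρ := by
    simp only [← mul_sum, hq1]; ring
  have h2 : ∑ x : J × J, p * (ρ * q x.1 * (ρ * q x.2)) = p * ρ ^ 2 := by
    rw [Fintype.sum_prod_type]
    have : ∀ i j, p * (ρ * q i * (ρ * q j)) = p * ρ ^ 2 * q i * q j := fun i j => by ring
    simp only [this, ← mul_sum, hq1, mul_one]
  rw [h1, h2]

theorem om_two (p ρ : ℝ) (hp0 : 0 ≤ p) (hp1 : p ≤ 1) (hρ : 0 ≤ ρ) (q v : J → ℝ)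
    (hq : ∀ j, 0 ≤ q j) (hv : ∀ j, 0 ≤ v j) :
    (2 * (1 - p) / 3) ^ 2 * ρ ^ 2 * m2 q v + 2 * (2 * (1 - p) / 3) * p * ρ ^ 3 * m3 q v
      ≤ ∑ s, ∑ t, om p (fun j => ρ * q j) s * om p (fun j => ρ * q j) t
          * min (uu v s) (uu v t) := by
  have hp : 0 ≤ 1 - p := by linarith
  rw [Fintype.sum_sum_type]
  simp only [Fintype.sum_sum_type, om, uu, sum_add_distrib]
  have h1 : ∑ i, ∑ j, 2 * (1 - p) / 3 * (ρ * q i) * (2 * (1 - p) / 3 * (ρ * q j))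
      * min (v i) (v j) = (2 * (1 - p) / 3) ^ 2 * ρ ^ 2 * m2 q v := by
    unfold m2
    rw [mul_sum]
    refine sum_congr rfl fun i _ => ?_
    rw [mul_sum]
    refine sum_congr rfl fun j _ => ?_
    ring
  have h2 : ∑ i, ∑ x : J × J, 2 * (1 - p) / 3 * (ρ * q i) * (p * (ρ * q x.1 * (ρ * q x.2)))
      * min (v i) (min (v x.1) (v x.2)) = (2 * (1 - p) / 3) * p * ρ ^ 3 * m3 q v := by
    unfold m3
    rw [mul_sum]
    refine sum_congr rfl fun i _ => ?_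
    rw [Fintype.sum_prod_type, mul_sum]
    refine sum_congr rfl fun j _ => ?_
    rw [mul_sum]
    refine sum_congr rfl fun k _ => ?_
    ring
  have h3 : ∑ x : J × J, ∑ i, p * (ρ * q x.1 * (ρ * q x.2)) * (2 * (1 - p) / 3 * (ρ * q i))
      * min (min (v x.1) (v x.2)) (v i) = (2 * (1 - p) / 3) * p * ρ ^ 3 * m3 q v := by
    rw [← h2, sum_comm]
    refine sum_congr rfl fun i _ => sum_congr rfl fun x _ => ?_
    rw [min_comm (min (v x.1) (v x.2)) (v i)]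
    ring
  have h4 : 0 ≤ ∑ x : J × J, ∑ y : J × J, p * (ρ * q x.1 * (ρ * q x.2)) *
      (p * (ρ * q y.1 * (ρ * q y.2))) * min (min (v x.1) (v x.2)) (min (v y.1) (v y.2)) := by
    refine sum_nonneg fun x _ => sum_nonneg fun y _ => ?_
    have := hq x.1
    have := hq x.2
    have := hq y.1
    have := hq y.2
    have h5 : 0 ≤ min (min (v x.1) (v x.2)) (min (v y.1) (v y.2)) :=
      le_min (le_min (hv _) (hv _)) (le_min (hv _) (hv _))
    positivity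
  rw [h1, h2, h3]
  linarith

theorem om_three (p ρ : ℝ) (hp0 : 0 ≤ p) (hp1 : p ≤ 1) (hρ : 0 ≤ ρ) (q v : J → ℝ)
    (hq : ∀ j, 0 ≤ q j) (hv : ∀ j, 0 ≤ v j) :
    (2 * (1 - p) / 3) ^ 3 * ρ ^ 3 * mB q v
      ≤ ∑ a, ∑ s, ∑ t, om p (fun j => ρ * q j) a * om p (fun j => ρ * q j) s *
          om p (fun j => ρ * q j) t * min (uu v a) (uu v s + uu v t) := by
  have hp : 0 ≤ 1 - p := by linarith
  have hom : ∀ t, 0 ≤ om p (fun j => ρ * q j) t := by
    rintro (j | j)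
    · have := hq j
      simp only [om]; positivity
    · have := hq j.1
      have := hq j.2
      simp only [om]; positivity
  have huu : ∀ t, 0 ≤ uu v t := by
    rintro (j | j)
    · exact hv j
    · exact le_min (hv _) (hv _)
  have h0 : ∀ a s t, 0 ≤ om p (fun j => ρ * q j) a * om p (fun j => ρ * q j) s *
          om p (fun j => ρ * q j) t * min (uu v a) (uu v s + uu v t) := fun a s t =>
    mul_nonneg (mul_nonneg (mul_nonneg (hom a) (hom s)) (hom t))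
      (le_min (huu a) (add_nonneg (huu s) (huu t)))
  calc (2 * (1 - p) / 3) ^ 3 * ρ ^ 3 * mB q v
      = ∑ i, ∑ j, ∑ k, om p (fun j => ρ * q j) (Sum.inl i) * om p (fun j => ρ * q j) (Sum.inl j) *
          om p (fun j => ρ * q j) (Sum.inl k) *
          min (uu v (Sum.inl i)) (uu v (Sum.inl j) + uu v (Sum.inl k)) := by
        simp only [om, uu]
        unfold mB
        rw [mul_sum]
        refine sum_congr rfl fun i _ => ?_
        rw [mul_sum]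
        refine sum_congr rfl fun j _ => ?_
        rw [mul_sum]
        refine sum_congr rfl fun k _ => ?_
        ring
    _ ≤ _ := by
        refine le_trans ?_ (sum_inl_le _ (fun a => sum_nonneg fun s _ => sum_nonneg fun t _ =>
          h0 a s t))
        refine sum_le_sum fun i _ => ?_
        refine le_trans ?_ (sum_inl_le _ (fun s => sum_nonneg fun t _ => h0 _ s t))
        refine sum_le_sum fun j _ => ?_
        exact sum_inl_le _ (fun t => h0 _ _ t)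

/-- The first-order expansion of the functional. -/
noncomputable def P1 (R a2 a3 aB ρ : ℝ) : ℝ :=
  -(ρ * (1 - ρ ^ 2) * a2)
    - (2 * (1 - ρ ^ 2) + 3 * ((1 - ρ ^ 2) * R) * ρ) * (1 - ρ ^ 2) ^ 2 * a2
    + (1 - (2 * (1 - ρ ^ 2) * ρ + 3 * ((1 - ρ ^ 2) * R) * ρ ^ 2)) *
        (3 * (1 - ρ ^ 2) * ((1 - ρ ^ 2) * R) * a3 + (1 - ρ ^ 2) ^ 3 * aB)
    - 2 * ((1 - ρ ^ 2) * R) * a3

theorem exists_rho (R a2 a3 aB : ℝ) (h : 0 < R * a3 + aB - 2 * a2) :
    ∃ ρ : ℝ, 0 < ρ ∧ ρ < 1 ∧ 0 < P1 R a2 a3 aB ρ := by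
  have hc : Continuous (P1 R a2 a3 aB) := by
    unfold P1
    fun_prop
  have h0 : 0 < P1 R a2 a3 aB 0 := by
    unfold P1
    ring_nf
    ring_nf at h
    linarith
  have h1 : ∀ᶠ ρ in 𝓝 (0 : ℝ), 0 < P1 R a2 a3 aB ρ := hc.tendsto 0 |>.eventually_const_lt h0
  have h2 : ∀ᶠ ρ in 𝓝[>] (0 : ℝ), 0 < P1 R a2 a3 aB ρ := h1.filter_mono nhdsWithin_le_nhds
  have h3 : ∀ᶠ ρ in 𝓝[>] (0 : ℝ), ρ ∈ Set.Ioo (0 : ℝ) 1 :=
    Ioo_mem_nhdsGT one_pos
  obtain ⟨ρ, hρ1, hρ2⟩ := (h2.and h3).exists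
  exact ⟨ρ, hρ2.1, hρ2.2, hρ1⟩

/-- The criterion in terms of the three moments. -/
theorem moments (p : ℝ) (hp0 : 0 ≤ p) (hp1 : p < 1) (q v : J → ℝ)
    (hq : ∀ j, 0 ≤ q j) (hq1 : ∑ j, q j = 1) (hv0 : ∀ j, 0 ≤ v j) (hv1 : ∀ j, v j ≤ 1)
    (h : 0 < p / (1 - p) * m3 q v + mB q v - 2 * m2 q v) :
    ∃ r : ℝ, 0 < r ∧ r * (1 - p) < 1 ∧
      Tendsto (fun n : ℕ => probSat n ⌊r * n⌋₊ p) atTop (𝓝 0) := by
  obtain ⟨ρ, hρ0, hρ1, hP⟩ := exists_rho _ _ _ _ h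
  have hp : 0 < 1 - p := by linarith
  have hρ2 : 0 < 1 - ρ ^ 2 := by nlinarith
  have hρ3 : 0 < ρ ^ 2 := by positivity
  have hm2 : 0 ≤ m2 q v := by
    unfold m2
    exact sum_nonneg fun i _ => sum_nonneg fun j _ =>
      mul_nonneg (mul_nonneg (hq i) (hq j)) (le_min (hv0 _) (hv0 _))
  have hm3 : 0 ≤ m3 q v := by
    unfold m3
    exact sum_nonneg fun i _ => sum_nonneg fun j _ => sum_nonneg fun k _ =>
      mul_nonneg (mul_nonneg (mul_nonneg (hq i) (hq j)) (hq k))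
        (le_min (hv0 _) (le_min (hv0 _) (hv0 _)))
  have hmB : 0 ≤ mB q v := by
    unfold mB
    exact sum_nonneg fun i _ => sum_nonneg fun j _ => sum_nonneg fun k _ =>
      mul_nonneg (mul_nonneg (mul_nonneg (hq i) (hq j)) (hq k))
        (le_min (hv0 _) (add_nonneg (hv0 _) (hv0 _)))
  set r := (1 - ρ ^ 2) / (1 - p) with hr
  have hr0 : 0 < r := div_pos hρ2 hp
  have hr1 : r * (1 - p) = 1 - ρ ^ 2 := by rw [hr]; field_simp
  set R := p / (1 - p) with hR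
  have hrp : r * p = (1 - ρ ^ 2) * R := by rw [hr, hR]; ring
  have hR0 : 0 ≤ R := by rw [hR]; positivity
  refine ⟨r, hr0, by rw [hr1]; linarith, ?_⟩
  apply criterion p r hp0 hp1.le hr0 (fun j => ρ * q j) v
    (fun j => mul_nonneg hρ0.le (hq j)) hv0 hv1
  · rw [sum_om p ρ q hq1]
    have h1 : p * ρ ^ 2 ≤ p := by nlinarith
    have h2 : 2 * (1 - p) / 3 * ρ ≤ 2 * (1 - p) / 3 := by
      have : 0 ≤ 2 * (1 - p) / 3 := by positivity
      nlinarith
    linarith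
  · unfold Psi
    rw [sum_om p ρ q hq1]
    have e2 := om_two p ρ hp0 hp1.le hρ0.le q v hq hv0
    have e3 := om_three p ρ hp0 hp1.le hρ0.le q v hq hv0
    set X2 := ∑ s, ∑ t, om p (fun j => ρ * q j) s * om p (fun j => ρ * q j) t
          * min (uu v s) (uu v t) with hX2
    set X3 := ∑ a, ∑ s, ∑ t, om p (fun j => ρ * q j) a * om p (fun j => ρ * q j) s *
          om p (fun j => ρ * q j) t * min (uu v a) (uu v s + uu v t) with hX3
    have f2 : ∑ i, ∑ j, (ρ * q i) * (ρ * q j) * min (v i) (v j) = ρ ^ 2 * m2 q v := by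
      unfold m2
      rw [mul_sum]
      refine sum_congr rfl fun i _ => ?_
      rw [mul_sum]
      refine sum_congr rfl fun j _ => ?_
      ring
    have f3 : ∑ i, ∑ j, ∑ k, (ρ * q i) * (ρ * q j) * (ρ * q k) * min (v i) (min (v j) (v k))
        = ρ ^ 3 * m3 q v := by
      unfold m3
      rw [mul_sum]
      refine sum_congr rfl fun i _ => ?_
      rw [mul_sum]
      refine sum_congr rfl fun j _ => ?_
      rw [mul_sum]
      refine sum_congr rfl fun k _ => ?_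
      ring
    rw [f2, f3]
    set Λ := 3 * r * (2 * (1 - p) / 3 * ρ + p * ρ ^ 2) with hΛ
    have hΛ' : Λ = 2 * (1 - ρ ^ 2) * ρ + 3 * ((1 - ρ ^ 2) * R) * ρ ^ 2 := by
      rw [hΛ, ← hrp, ← hr1]; ring
    have hexp : 1 - Λ ≤ Real.exp (-Λ) := by
      have := Real.add_one_le_exp (-Λ); linarith
    set Y := (1 - ρ ^ 2) ^ 2 * ρ ^ 2 * m2 q v
      + 3 * (1 - ρ ^ 2) * ((1 - ρ ^ 2) * R) * ρ ^ 3 * m3 q v
      + (1 - ρ ^ 2) ^ 3 * ρ ^ 3 * mB q v with hY
    have hY0 : 0 ≤ Y := by positivity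
    have hYle : Y ≤ (3 * r) * (3 * r) / 2 * (1 / 2 * X2)
        + (3 * r) * (3 * r) / 2 * (3 * r) / 3 * (3 / 4 * X3) := by
      have g2 := mul_le_mul_of_nonneg_left e2 (show 0 ≤ (3 * r) * (3 * r) / 2 * (1 / 2) by positivity)
      have g3 := mul_le_mul_of_nonneg_left e3
        (show 0 ≤ (3 * r) * (3 * r) / 2 * (3 * r) / 3 * (3 / 4) by positivity)
      have hYe : Y = (3 * r) * (3 * r) / 2 * (1 / 2) *
            ((2 * (1 - p) / 3) ^ 2 * ρ ^ 2 * m2 q v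
              + 2 * (2 * (1 - p) / 3) * p * ρ ^ 3 * m3 q v)
          + (3 * r) * (3 * r) / 2 * (3 * r) / 3 * (3 / 4) *
            ((2 * (1 - p) / 3) ^ 3 * ρ ^ 3 * mB q v) := by
        rw [hY, ← hrp, ← hr1]; ring
      rw [hYe]
      refine le_trans (add_le_add g2 g3) (le_of_eq ?_)
      ring
    have hfin : (1 - Λ) * Y ≤ Real.exp (-Λ) * ((3 * r) * (3 * r) / 2 * (1 / 2 * X2)
        + (3 * r) * (3 * r) / 2 * (3 * r) / 3 * (3 / 4 * X3)) := by
      calc (1 - Λ) * Y ≤ Real.exp (-Λ) * Y := mul_le_mul_of_nonneg_right hexp hY0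
        _ ≤ _ := mul_le_mul_of_nonneg_left hYle (Real.exp_pos _).le
    have hid : (1 - Λ) * Y - r * ((1 - p) * (ρ ^ 2 * m2 q v) + p * (2 * (ρ ^ 3 * m3 q v)))
        = ρ ^ 3 * P1 R (m2 q v) (m3 q v) (mB q v) ρ := by
      have h1 : r * ((1 - p) * (ρ ^ 2 * m2 q v) + p * (2 * (ρ ^ 3 * m3 q v)))
          = (r * (1 - p)) * ρ ^ 2 * m2 q v + 2 * (r * p) * ρ ^ 3 * m3 q v := by ring
      rw [h1, hr1, hrp, hΛ', hY]
      unfold P1
      ring
    have hpos : 0 < ρ ^ 3 * P1 R (m2 q v) (m3 q v) (mB q v) ρ := by positivity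
    linarith

end

end Pool.Agent.H986R2.TwoP
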