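import Mathlib

open Finset MeasureTheory

namespace Pool.Agent.H986R2.TwoP

/-- indicator of `t < x` -/
noncomputable def ind (x t : ℝ) : ℝ := if t < x then 1 else 0

theorem ind_nonneg (x t : ℝ) : 0 ≤ ind x t := by unfold ind; split_ifs <;> norm_num

theorem ind_anti (x : ℝ) : Antitone (ind x) := by
  intro s t hst
  unfold ind
  by_cases h : t < x
  · rw [if_pos h, if_pos (lt_of_le_of_lt hst h)]
  · rw [if_neg h]; split_ifs <;> norm_num

theorem ind_mul (x y t : ℝ) : ind x t * ind y t = ind (min x y) t := by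
  unfold ind
  by_cases h1 : t < x <;> by_cases h2 : t < y <;> simp [h1, h2]

theorem ind_int (x : ℝ) : IntervalIntegrable (ind x) volume 0 1 :=
  ((ind_anti x).antitoneOn _).intervalIntegrable

theorem integral_ind (x : ℝ) (h0 : 0 ≤ x) (h1 : x ≤ 1) : ∫ t in (0 : ℝ)..1, ind x t = x := by
  have e1 : ∫ t in (0 : ℝ)..x, ind x t = x := by
    have : ∫ t in (0 : ℝ)..x, ind x t = ∫ t in (0 : ℝ)..x, (1 : ℝ) := by
      apply intervalIntegral.integral_congr_ae
      have hx : ∀ᵐ t : ℝ, t ≠ x := by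
        rw [ae_iff]; simp
      filter_upwards [hx] with t ht hmem
      rw [Set.uIoc_of_le h0] at hmem
      unfold ind
      rw [if_pos (lt_of_le_of_ne hmem.2 ht)]
    rw [this]; simp
  have e2 : ∫ t in x..(1 : ℝ), ind x t = 0 := by
    have : ∫ t in x..(1 : ℝ), ind x t = ∫ t in x..(1 : ℝ), (0 : ℝ) := by
      apply intervalIntegral.integral_congr
      intro t ht
      rw [Set.uIcc_of_le h1] at ht
      simp only [ind]
      rw [if_neg (not_lt.2 ht.1)]
    rw [this]; simp
  rw [← intervalIntegral.integral_add_adjacent_intervals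
    (((ind_anti x).antitoneOn _).intervalIntegrable (a := 0) (b := x))
    (((ind_anti x).antitoneOn _).intervalIntegrable (a := x) (b := 1)), e1, e2, add_zero]

theorem ii_sum {ι : Type*} (s : Finset ι) (f : ι → ℝ → ℝ)
    (h : ∀ i ∈ s, IntervalIntegrable (f i) volume 0 1) :
    IntervalIntegrable (fun t => ∑ i ∈ s, f i t) volume 0 1 := by
  have e : (fun t => ∑ i ∈ s, f i t) = ∑ i ∈ s, f i := by
    funext t; simp [Finset.sum_apply]
  rw [e]
  exact IntervalIntegrable.sum s h

/-- The min kernel. -/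
theorem ker {ι κ : Type*} [Fintype ι] [Fintype κ] (c x : ι → ℝ) (d y : κ → ℝ)
    (hx0 : ∀ i, 0 ≤ x i) (hx1 : ∀ i, x i ≤ 1) (hy0 : ∀ k, 0 ≤ y k)
    (hd : ∀ k, 0 ≤ d k) :
    0 ≤ ∑ i, ∑ j, ∑ k, c i * c j * d k * min (x i) (min (x j) (y k)) := by
  have h1 : ∀ t : ℝ, ((∑ i, c i * ind (x i) t) * (∑ i, c i * ind (x i) t)) *
      (∑ k, d k * ind (y k) t)
      = ∑ i, ∑ j, ∑ k, c i * c j * d k * ind (min (x i) (min (x j) (y k))) t := by
    intro t
    rw [sum_mul_sum, sum_mul]
    apply sum_congr rfl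
    intro i _
    rw [sum_mul]
    apply sum_congr rfl
    intro j _
    rw [mul_sum]
    apply sum_congr rfl
    intro k _
    rw [← ind_mul, ← ind_mul]
    ring
  have h2 : ∫ t in (0 : ℝ)..1, ∑ i, ∑ j, ∑ k, c i * c j * d k *
        ind (min (x i) (min (x j) (y k))) t
      = ∑ i, ∑ j, ∑ k, c i * c j * d k * min (x i) (min (x j) (y k)) := by
    rw [intervalIntegral.integral_finsetSum]
    · apply sum_congr rfl
      intro i _
      rw [intervalIntegral.integral_finsetSum]
      · apply sum_congr rfl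
        intro j _
        rw [intervalIntegral.integral_finsetSum]
        · apply sum_congr rfl
          intro k _
          rw [intervalIntegral.integral_const_mul, integral_ind]
          · exact le_min (hx0 i) (le_min (hx0 j) (hy0 k))
          · exact (min_le_left _ _).trans (hx1 i)
        · intro k _
          exact (ind_int _).const_mul _
      · intro j _
        apply ii_sum
        intro k _
        exact (ind_int _).const_mul _
    · intro i _
      apply ii_sum
      intro j _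
      apply ii_sum
      intro k _
      exact (ind_int _).const_mul _
  rw [← h2]
  apply intervalIntegral.integral_nonneg zero_le_one
  intro t _
  rw [← h1]
  apply mul_nonneg (mul_self_nonneg _)
  exact sum_nonneg (fun k _ => mul_nonneg (hd k) (ind_nonneg _ _))

theorem ker2 {ι κ : Type*} [Fintype ι] [Fintype κ] (a x : ι → ℝ) (b v : κ → ℝ)
    (hx0 : ∀ i, 0 ≤ x i) (hx1 : ∀ i, x i ≤ 1) (hv0 : ∀ k, 0 ≤ v k) (hv1 : ∀ k, v k ≤ 1) :
    2 * ∑ i, ∑ j, a i * b j * min (x i) (v j)
      ≤ ∑ i, ∑ j, a i * a j * min (x i) (x j) + ∑ i, ∑ j, b i * b j * min (v i) (v j) := by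
  have h := ker (ι := ι ⊕ κ) (κ := Unit) (Sum.elim a (fun j => - b j)) (Sum.elim x v)
    (fun _ => 1) (fun _ => 1) (by rintro (i | i); exacts [hx0 i, hv0 i])
    (by rintro (i | i); exacts [hx1 i, hv1 i]) (fun _ => zero_le_one) (fun _ => zero_le_one)
  simp only [Fintype.sum_sum_type, Sum.elim_inl, Sum.elim_inr, univ_unique, sum_const,
    card_singleton, one_smul, mul_one] at h
  have e1 : ∀ i : ι, min (x i) 1 = x i := fun i => min_eq_left (hx1 i)
  have e2 : ∀ i : κ, min (v i) 1 = v i := fun i => min_eq_left (hv1 i)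
  simp only [e1, e2] at h
  have e3 : ∑ i, ∑ j, -b i * a j * min (v i) (x j) = - ∑ i, ∑ j, a i * b j * min (x i) (v j) := by
    rw [sum_comm, ← sum_neg_distrib]
    apply sum_congr rfl
    intro i _
    rw [← sum_neg_distrib]
    apply sum_congr rfl
    intro j _
    rw [min_comm]; ring
  have e4 : ∑ i, ∑ j, a i * -b j * min (x i) (v j) = - ∑ i, ∑ j, a i * b j * min (x i) (v j) := by
    rw [← sum_neg_distrib]
    apply sum_congr rfl
    intro i _
    rw [← sum_neg_distrib]
    apply sum_congr rfl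
    intro j _
    ring
  have e5 : ∑ i, ∑ j, -b i * -b j * min (v i) (v j) = ∑ i, ∑ j, b i * b j * min (v i) (v j) := by
    apply sum_congr rfl
    intro i _
    apply sum_congr rfl
    intro j _
    ring
  simp only [sum_add_distrib, e3, e4, e5] at h
  linarith

theorem ker3 {ι κ : Type*} [Fintype ι] [Fintype κ] (a x : ι → ℝ) (b v : κ → ℝ)
    (ha : ∀ i, 0 ≤ a i) (hb : ∀ i, 0 ≤ b i)
    (hx0 : ∀ i, 0 ≤ x i) (hx1 : ∀ i, x i ≤ 1) (hv0 : ∀ k, 0 ≤ v k) (hv1 : ∀ k, v k ≤ 1) :
    3 * ∑ i, ∑ j, ∑ k, a i * b j * b k * min (x i) (min (v j) (v k))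
      ≤ ∑ i, ∑ j, ∑ k, a i * a j * a k * min (x i) (min (x j) (x k))
        + 2 * ∑ i, ∑ j, ∑ k, b i * b j * b k * min (v i) (min (v j) (v k)) := by
  have h := ker (ι := ι ⊕ κ) (κ := ι ⊕ κ) (Sum.elim a (fun j => - b j)) (Sum.elim x v)
    (Sum.elim a (fun j => 2 * b j)) (Sum.elim x v)
    (by rintro (i | i); exacts [hx0 i, hv0 i])
    (by rintro (i | i); exacts [hx1 i, hv1 i])
    (by rintro (i | i); exacts [hx0 i, hv0 i])
    (by rintro (i | i); exacts [ha i, mul_nonneg zero_le_two (hb i)])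
  simp only [Fintype.sum_sum_type, Sum.elim_inl, Sum.elim_inr, sum_add_distrib] at h
  set T := ∑ i, ∑ j, ∑ k, a i * b j * b k * min (x i) (min (v j) (v k)) with hT
  set U := ∑ i, ∑ j, ∑ k, a i * a j * b k * min (x i) (min (x j) (v k)) with hU
  have e1 : ∑ i, ∑ j, ∑ k, a i * a j * (2 * b k) * min (x i) (min (x j) (v k)) = 2 * U := by
    rw [hU, mul_sum]
    refine sum_congr rfl fun i _ => ?_
    rw [mul_sum]
    refine sum_congr rfl fun j _ => ?_
    rw [mul_sum]
    refine sum_congr rfl fun k _ => ?_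
    ring
  have e2 : ∑ i, ∑ j, ∑ k, a i * -b j * a k * min (x i) (min (v j) (x k)) = - U := by
    rw [hU, ← sum_neg_distrib]
    refine sum_congr rfl fun i _ => ?_
    rw [← sum_neg_distrib, sum_comm]
    refine sum_congr rfl fun j _ => ?_
    rw [← sum_neg_distrib]
    refine sum_congr rfl fun k _ => ?_
    rw [min_comm (v k)]; ring
  have e3 : ∑ i, ∑ j, ∑ k, a i * -b j * (2 * b k) * min (x i) (min (v j) (v k)) = - (2 * T) := by
    rw [hT, mul_sum, ← sum_neg_distrib]
    refine sum_congr rfl fun i _ => ?_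
    rw [mul_sum, ← sum_neg_distrib]
    refine sum_congr rfl fun j _ => ?_
    rw [mul_sum, ← sum_neg_distrib]
    refine sum_congr rfl fun k _ => ?_
    ring
  have e4 : ∑ i, ∑ j, ∑ k, -b i * a j * a k * min (v i) (min (x j) (x k)) = - U := by
    rw [hU, ← sum_neg_distrib, sum_comm]
    refine sum_congr rfl fun i _ => ?_
    rw [← sum_neg_distrib, sum_comm]
    refine sum_congr rfl fun j _ => ?_
    rw [← sum_neg_distrib]
    refine sum_congr rfl fun k _ => ?_
    rw [min_left_comm, min_comm (v k)]; ring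
  have e5 : ∑ i, ∑ j, ∑ k, -b i * a j * (2 * b k) * min (v i) (min (x j) (v k)) = - (2 * T) := by
    rw [hT, mul_sum, ← sum_neg_distrib, sum_comm]
    refine sum_congr rfl fun i _ => ?_
    rw [mul_sum, ← sum_neg_distrib]
    refine sum_congr rfl fun j _ => ?_
    rw [mul_sum, ← sum_neg_distrib]
    refine sum_congr rfl fun k _ => ?_
    rw [min_left_comm]; ring
  have e6 : ∑ i, ∑ j, ∑ k, -b i * -b j * a k * min (v i) (min (v j) (x k)) = T := by
    rw [hT]
    have : ∀ i : κ, ∑ j, ∑ k, -b i * -b j * a k * min (v i) (min (v j) (x k))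
        = ∑ k, ∑ j, -b i * -b j * a k * min (v i) (min (v j) (x k)) := fun i => sum_comm
    simp only [this]
    rw [sum_comm]
    refine sum_congr rfl fun i _ => ?_
    refine sum_congr rfl fun j _ => ?_
    refine sum_congr rfl fun k _ => ?_
    rw [← min_assoc, min_comm _ (x i)]; ring
  have e7 : ∑ i, ∑ j, ∑ k, -b i * -b j * (2 * b k) * min (v i) (min (v j) (v k))
      = 2 * ∑ i, ∑ j, ∑ k, b i * b j * b k * min (v i) (min (v j) (v k)) := by
    rw [mul_sum]
    refine sum_congr rfl fun i _ => ?_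
    rw [mul_sum]
    refine sum_congr rfl fun j _ => ?_
    rw [mul_sum]
    refine sum_congr rfl fun k _ => ?_
    ring
  rw [e1, e2, e3, e4, e5, e6, e7] at h
  linarith

end Pool.Agent.H986R2.TwoP
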