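import Mathlib

open Finset

namespace Pool.Agent.H986R2.TwoP

/-- rational weights -/
def wq (i j : ℕ) : ℚ :=
  (100 / 101) ^ (i + j) * max 0 (1 - ((101 / 100) ^ (3 * i) - (101 / 100) ^ (3 * j)))

/-- level sums -/
def offq (m : ℕ) : ℚ := wq (m + 1) 0 + 2 * ∑ j ∈ range m, wq (m + 1) (j + 1)

set_option maxRecDepth 100000 in
theorem offq_sum : ∑ m ∈ range 118, offq m ≤ 494 := by decide +kernel

end Pool.Agent.H986R2.TwoP
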