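import Pool.Agent.H986R2.TwoP.Symm
import Pool.Agent.H986R2.TwoP.Numeric

open Finset Filter Topology

namespace Pool.Agent.H986R2.TwoP

/-- the ratio of the weights -/
noncomputable def bb : ℝ := 100 / 101

/-- the ratio of the values -/
noncomputable def th : ℝ := (101 / 100) ^ 3

theorem bb_pos : 0 < bb := by unfold bb; norm_num
theorem bb_lt : bb < 1 := by unfold bb; norm_num
theorem one_lt_th : 1 < th := by unfold th; norm_num
theorem th_pos : 0 < th := by unfold th; norm_num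
theorem bb_th : bb ^ 3 * th = 1 := by unfold bb th; norm_num

theorem dd_smul (c x y z : ℝ) (hc : 0 ≤ c) : dd (c * x) (c * y) (c * z) = c * dd x y z := by
  unfold dd
  have e1 : max (c * x) (max (c * y) (c * z)) = c * max x (max y z) := by
    rw [mul_max_of_nonneg _ _ hc, mul_max_of_nonneg _ _ hc]
  rw [e1, mul_max_of_nonneg 0 (x + y + z - 2 * max x (max y z)) hc, mul_zero]
  congr 1
  ring

theorem GG_smul (R c x y z : ℝ) (hc : 0 ≤ c) : GG R (c * x) (c * y) (c * z) = c * GG R x y z := by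
  unfold GG
  rw [dd_smul c x y z hc, ← mul_min_of_nonneg _ _ hc, ← mul_min_of_nonneg _ _ hc]
  ring

theorem dd_comm12 (x y z : ℝ) : dd y x z = dd x y z := by
  unfold dd
  congr 1
  rw [max_left_comm]
  ring

theorem dd_comm23 (x y z : ℝ) : dd x z y = dd x y z := by
  unfold dd
  congr 1
  rw [max_comm z y]
  ring

theorem GG_comm12 (R x y z : ℝ) : GG R y x z = GG R x y z := by
  unfold GG
  rw [dd_comm12, min_left_comm]

theorem GG_comm23 (R x y z : ℝ) : GG R x z y = GG R x y z := by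
  unfold GG
  rw [dd_comm23, min_comm z y]

/-- terms of the lattice sum -/
noncomputable def FF (R : ℝ) (i j k : ℕ) : ℝ :=
  bb ^ i * bb ^ j * bb ^ k * GG R (th ^ i) (th ^ j) (th ^ k)

theorem FF_shift (R : ℝ) (i j k : ℕ) : FF R (i + 1) (j + 1) (k + 1) = FF R i j k := by
  unfold FF
  rw [pow_succ' th i, pow_succ' th j, pow_succ' th k, GG_smul R th _ _ _ th_pos.le]
  have := bb_th
  calc bb ^ (i + 1) * bb ^ (j + 1) * bb ^ (k + 1) * (th * GG R (th ^ i) (th ^ j) (th ^ k))
      = (bb ^ 3 * th) * (bb ^ i * bb ^ j * bb ^ k * GG R (th ^ i) (th ^ j) (th ^ k)) := by ring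
    _ = _ := by rw [this, one_mul]

theorem FF_comm12 (R : ℝ) (i j k : ℕ) : FF R j i k = FF R i j k := by
  unfold FF
  rw [GG_comm12]; ring

theorem FF_comm23 (R : ℝ) (i j k : ℕ) : FF R i k j = FF R i j k := by
  unfold FF
  rw [GG_comm23]; ring

/-- The lattice sum. -/
noncomputable def TT (R : ℝ) (n : ℕ) : ℝ :=
  ∑ i ∈ range n, ∑ j ∈ range n, ∑ k ∈ range n, FF R i j k

/-- The contribution of one level. -/
noncomputable def LL (R : ℝ) (n : ℕ) : ℝ :=
  3 * ∑ i ∈ range n, ∑ j ∈ range n, FF R (i + 1) (j + 1) 0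
    + 3 * ∑ i ∈ range n, FF R (i + 1) 0 0 + FF R 0 0 0

theorem TT_succ (R : ℝ) (n : ℕ) : TT R (n + 1) = TT R n + LL R n := by
  unfold TT LL
  simp only [sum_range_succ' _ n, sum_add_distrib, FF_shift]
  have e1 : ∀ i k, FF R (i + 1) 0 (k + 1) = FF R (i + 1) (k + 1) 0 := fun i k =>
    FF_comm23 R (i + 1) (k + 1) 0
  have e2 : ∀ j k, FF R 0 (j + 1) (k + 1) = FF R (j + 1) (k + 1) 0 := fun j k => by
    rw [← FF_comm23 R (j + 1) (k + 1) 0, ← FF_comm12 R (j + 1) 0 (k + 1)]
  have e3 : ∀ j, FF R 0 (j + 1) 0 = FF R (j + 1) 0 0 := fun j => FF_comm12 R (j + 1) 0 0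
  have e4 : ∀ k, FF R 0 0 (k + 1) = FF R (k + 1) 0 0 := fun k => by
    rw [FF_comm23 R 0 (k + 1) 0, e3]
  simp only [e1, e2, e3, e4]
  ring

/-- weights -/
noncomputable def wr (i j : ℕ) : ℝ := bb ^ i * bb ^ j * max 0 (1 - |th ^ i - th ^ j|)

theorem wr_nonneg (i j : ℕ) : 0 ≤ wr i j := by
  have := bb_pos
  unfold wr
  positivity

theorem wr_comm (i j : ℕ) : wr i j = wr j i := by
  unfold wr
  rw [abs_sub_comm]; ring

theorem wr_self (i : ℕ) : wr i i = (bb ^ 2) ^ i := by
  unfold wr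
  rw [sub_self, abs_zero, sub_zero, max_eq_right zero_le_one, mul_one, ← pow_mul, ← pow_add]
  congr 1; ring

theorem dd_one (x y : ℝ) (hy : 1 ≤ y) : dd x y 1 = max 0 (1 - |x - y|) := by
  unfold dd
  congr 1
  rcases le_total x y with h | h
  · rw [max_eq_left hy, max_eq_right h, abs_of_nonpos (by linarith)]; ring
  · rw [max_eq_left hy, max_eq_left h, abs_of_nonneg (by linarith)]; ring

theorem FF_zero (R : ℝ) (i j : ℕ) :
    FF R i j 0 = (3 * R - 2) * (bb ^ i * bb ^ j) - wr i j := by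
  unfold FF GG wr
  have hi : 1 ≤ th ^ i := one_le_pow₀ one_lt_th.le
  have hj : 1 ≤ th ^ j := one_le_pow₀ one_lt_th.le
  rw [pow_zero, pow_zero, dd_one _ _ hj, min_eq_right hj, min_eq_right hi]
  ring

/-- geometric sums -/
noncomputable def gs (n : ℕ) : ℝ := ∑ i ∈ range n, bb ^ (i + 1)

/-- the deficit -/
noncomputable def AD (n : ℕ) : ℝ :=
  ∑ i ∈ range n, ∑ j ∈ range n, wr (i + 1) (j + 1) + ∑ i ∈ range n, wr (i + 1) 0

theorem LL_eq (R : ℝ) (n : ℕ) :
    LL R n = (3 * R - 2) * (3 * gs n ^ 2 + 3 * gs n + 1) - (3 * AD n + 1) := by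
  unfold LL AD
  have h1 : ∑ i ∈ range n, ∑ j ∈ range n, FF R (i + 1) (j + 1) 0
      = (3 * R - 2) * gs n ^ 2 - ∑ i ∈ range n, ∑ j ∈ range n, wr (i + 1) (j + 1) := by
    unfold gs
    rw [pow_two, sum_mul_sum, mul_sum, ← sum_sub_distrib]
    refine sum_congr rfl fun i _ => ?_
    rw [mul_sum, ← sum_sub_distrib]
    exact sum_congr rfl fun j _ => FF_zero R _ _
  have h2 : ∑ i ∈ range n, FF R (i + 1) 0 0
      = (3 * R - 2) * gs n - ∑ i ∈ range n, wr (i + 1) 0 := by
    unfold gs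
    rw [mul_sum, ← sum_sub_distrib]
    refine sum_congr rfl fun i _ => ?_
    rw [FF_zero, pow_zero, mul_one]
  have h3 : FF R 0 0 0 = (3 * R - 2) - 1 := by
    rw [FF_zero, wr_self]; simp
  rw [h1, h2, h3]
  ring

/-- off-diagonal level sums -/
noncomputable def offr (m : ℕ) : ℝ := wr (m + 1) 0 + 2 * ∑ j ∈ range m, wr (m + 1) (j + 1)

theorem AD_eq (n : ℕ) :
    AD n = ∑ m ∈ range n, (bb ^ 2) ^ (m + 1) + ∑ m ∈ range n, offr m := by
  induction n with
  | zero => simp [AD]
  | succ n ih =>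
    unfold AD at ih ⊢
    simp only [sum_range_succ _ n, sum_add_distrib]
    have h1 : ∑ x ∈ range n, wr (x + 1) (n + 1) = ∑ x ∈ range n, wr (n + 1) (x + 1) :=
      sum_congr rfl fun x _ => wr_comm _ _
    rw [h1, wr_self]
    unfold offr at ih ⊢
    linarith

theorem geo_le (x : ℝ) (hx0 : 0 ≤ x) (hx1 : x < 1) (n : ℕ) :
    ∑ m ∈ range n, x ^ (m + 1) ≤ x / (1 - x) := by
  have h : ∑ m ∈ range n, x ^ (m + 1) = (x - x ^ (n + 1)) / (1 - x) := by
    have h1 : (1 - x) ≠ 0 := by linarith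
    induction n with
    | zero => simp
    | succ n ih =>
      rw [sum_range_succ, ih]
      field_simp
      ring
  rw [h]
  have h1 : 0 < 1 - x := by linarith
  have h2 : 0 ≤ x ^ (n + 1) := by positivity
  gcongr
  linarith

theorem wr_cast (i j : ℕ) (h : j ≤ i) : wr i j = (wq i j : ℝ) := by
  unfold wr wq bb th
  have h1 : (101 / 100 : ℝ) ^ (3 * j) ≤ (101 / 100 : ℝ) ^ (3 * i) :=
    pow_le_pow_right₀ (by norm_num) (by omega)
  rw [← pow_mul, ← pow_mul, abs_of_nonneg (by linarith), ← pow_add]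
  push_cast
  rfl

theorem offr_cast (m : ℕ) : offr m = (offq m : ℝ) := by
  unfold offr offq
  push_cast
  rw [wr_cast _ _ (by omega)]
  congr 2
  refine sum_congr rfl fun j hj => ?_
  rw [mem_range] at hj
  exact wr_cast _ _ (by omega)

theorem offr_nonneg (m : ℕ) : 0 ≤ offr m := by
  unfold offr
  have h1 := wr_nonneg (m + 1) 0
  have h2 : 0 ≤ ∑ j ∈ range m, wr (m + 1) (j + 1) := sum_nonneg fun j _ => wr_nonneg _ _
  linarith

theorem wr_zero (m j : ℕ) (hm : 118 ≤ m) (hj : j ≤ m) : wr (m + 1) j = 0 := by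
  unfold wr
  have h1 : th ^ j ≤ th ^ m := pow_le_pow_right₀ one_lt_th.le hj
  have h2 : th ^ 118 ≤ th ^ m := pow_le_pow_right₀ one_lt_th.le hm
  have h3 : 1 ≤ th ^ 118 * (th - 1) := by unfold th; norm_num
  have h4 : th ^ 118 * (th - 1) ≤ th ^ m * (th - 1) :=
    mul_le_mul_of_nonneg_right h2 (by linarith [one_lt_th])
  have h5 : th ^ (m + 1) = th ^ m * th := pow_succ _ _
  have h6 : 1 ≤ th ^ (m + 1) - th ^ j := by rw [h5]; linarith
  rw [abs_of_nonneg (by linarith), max_eq_left (by linarith), mul_zero]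

theorem offr_zero (m : ℕ) (hm : 118 ≤ m) : offr m = 0 := by
  unfold offr
  rw [wr_zero m 0 hm (by omega)]
  have : ∑ j ∈ range m, wr (m + 1) (j + 1) = 0 := by
    refine sum_eq_zero fun j hj => ?_
    rw [mem_range] at hj
    exact wr_zero m (j + 1) hm (by omega)
  rw [this]; norm_num

theorem offr_sum (n : ℕ) : ∑ m ∈ range n, offr m ≤ 494 := by
  have h0 : ∑ m ∈ range 118, offr m ≤ 494 := by
    have h1 : ∑ m ∈ range 118, offr m = ((∑ m ∈ range 118, offq m : ℚ) : ℝ) := by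
      push_cast
      exact sum_congr rfl fun m _ => offr_cast m
    rw [h1]
    exact_mod_cast offq_sum
  refine le_trans ?_ h0
  calc ∑ m ∈ range n, offr m ≤ ∑ m ∈ range (max n 118), offr m :=
        sum_le_sum_of_subset_of_nonneg (range_subset_range.2 (le_max_left _ _))
          (fun m _ _ => offr_nonneg m)
    _ = ∑ m ∈ range 118, offr m := by
        symm
        refine sum_subset (range_subset_range.2 (le_max_right _ _)) fun m _ hm => ?_
        rw [mem_range, not_lt] at hm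
        exact offr_zero m hm

theorem AD_le (n : ℕ) : AD n ≤ 10000 / 201 + 494 := by
  rw [AD_eq]
  have h1 := geo_le (bb ^ 2) (by positivity) (by unfold bb; norm_num) n
  have h2 := offr_sum n
  have h3 : bb ^ 2 / (1 - bb ^ 2) = 10000 / 201 := by unfold bb; norm_num
  rw [h3] at h1
  linarith

theorem gs_tendsto : Tendsto gs atTop (𝓝 100) := by
  have h : ∀ n, gs n = (bb - bb * bb ^ n) / (1 - bb) := by
    intro n
    unfold gs
    have h1 : (1 - bb) ≠ 0 := by linarith [bb_lt]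
    induction n with
    | zero => simp
    | succ n ih =>
      rw [sum_range_succ, ih]
      field_simp
      ring
  have h2 : Tendsto (fun n : ℕ => bb ^ n) atTop (𝓝 0) :=
    tendsto_pow_atTop_nhds_zero_of_lt_one bb_pos.le bb_lt
  have h3 := ((h2.const_mul bb).const_sub bb).div_const (1 - bb)
  have h4 : (bb - bb * 0) / (1 - bb) = 100 := by unfold bb; norm_num
  rw [h4] at h3
  exact h3.congr (fun n => (h n).symm)

theorem LL_lower (R : ℝ) (hR : 0.4064 / 0.5936 < R) : ∀ᶠ n in atTop, 1 ≤ LL R n := by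
  have h1 : Tendsto (fun n => (3 * R - 2) * (3 * gs n ^ 2 + 3 * gs n + 1)
      - (3 * (10000 / 201 + 494) + 1)) atTop
      (𝓝 ((3 * R - 2) * (3 * 100 ^ 2 + 3 * 100 + 1) - (3 * (10000 / 201 + 494) + 1))) := by
    have h2 := gs_tendsto
    have h3 := ((((h2.pow 2).const_mul 3).add (h2.const_mul 3)).add_const 1).const_mul (3 * R - 2)
    exact h3.sub_const _
  have h4 : (1 : ℝ) < (3 * R - 2) * (3 * 100 ^ 2 + 3 * 100 + 1)
      - (3 * (10000 / 201 + 494) + 1) := by
    norm_num at hR ⊢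
    linarith
  filter_upwards [h1.eventually_const_lt h4] with n hn
  rw [LL_eq]
  have := AD_le n
  linarith

theorem exists_pos_of_level (T L : ℕ → ℝ) (h : ∀ n, T (n + 1) = T n + L n)
    (hL : ∀ᶠ n in atTop, 1 ≤ L n) : ∃ n, 0 < T n := by
  obtain ⟨N, hN⟩ := eventually_atTop.1 hL
  have h1 : ∀ k : ℕ, T N + k ≤ T (N + k) := by
    intro k
    induction k with
    | zero => simp
    | succ k ih =>
      have h2 := h (N + k)
      have h3 := hN (N + k) (by omega)
      rw [← add_assoc, h2]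
      push_cast
      linarith
  obtain ⟨k, hk⟩ := exists_nat_gt (-T N)
  exact ⟨N + k, by linarith [h1 k]⟩

theorem TT_pos (R : ℝ) (hR : 0.4064 / 0.5936 < R) : ∃ n, 0 < TT R n :=
  exists_pos_of_level (TT R) (LL R) (TT_succ R) (LL_lower R hR)

/-- The main estimate: for `p > 0.4064`, `p < 1`. -/
theorem main_lt (p : ℝ) (hp : 0.4064 < p) (hp1 : p < 1) :
    ∃ r : ℝ, 0 < r ∧ r * (1 - p) < 1 ∧
      Tendsto (fun n : ℕ => probSat n ⌊r * n⌋₊ p) atTop (𝓝 0) := by
  have hp0 : 0 < 1 - p := by linarith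
  have hR : 0.4064 / 0.5936 < p / (1 - p) := by
    rw [div_lt_div_iff₀ (by norm_num) hp0]
    norm_num at hp ⊢
    linarith
  obtain ⟨n, hn⟩ := TT_pos _ hR
  have hth := th_pos
  have hn1 : 0 < n := by
    rcases Nat.eq_zero_or_pos n with h | h
    · subst h
      simp [TT] at hn
    · exact h
  apply moments' p (by linarith) hp1 (fun j : Fin n => bb ^ (j : ℕ))
    (fun j : Fin n => (1 / th ^ n) * th ^ (j : ℕ))
  · intro j
    exact (pow_pos bb_pos _).le
  · have : Nonempty (Fin n) := ⟨⟨0, hn1⟩⟩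
    exact sum_pos (fun j _ => pow_pos bb_pos _) univ_nonempty
  · intro j; positivity
  · intro j
    rw [one_div, inv_mul_le_iff₀ (by positivity), mul_one]
    exact pow_le_pow_right₀ one_lt_th.le j.2.le
  · have e : SS (fun j : Fin n => bb ^ (j : ℕ)) (fun j : Fin n => (1 / th ^ n) * th ^ (j : ℕ))
        (GG (p / (1 - p))) = (1 / th ^ n) * TT (p / (1 - p)) n := by
      unfold SS TT
      rw [mul_sum, ← Fin.sum_univ_eq_sum_range (fun i => 1 / th ^ n *
        ∑ j ∈ range n, ∑ k ∈ range n, FF (p / (1 - p)) i j k) n]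
      refine sum_congr rfl fun i _ => ?_
      rw [mul_sum, ← Fin.sum_univ_eq_sum_range (fun j => 1 / th ^ n *
        ∑ k ∈ range n, FF (p / (1 - p)) i j k) n]
      refine sum_congr rfl fun j _ => ?_
      rw [mul_sum, ← Fin.sum_univ_eq_sum_range (fun k => 1 / th ^ n *
        FF (p / (1 - p)) i j k) n]
      refine sum_congr rfl fun k _ => ?_
      rw [GG_smul _ _ _ _ _ (by positivity)]
      unfold FF
      ring
    rw [e]
    positivity

end Pool.Agent.H986R2.TwoP
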