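import Pool.Agent.H986R2.TwoP.Defs

open Finset

namespace Pool.Agent.H986R2.TwoP

/-- The least value of a function on assignments. -/
noncomputable def mn {n : ℕ} (H : (Fin n → Bool) → ℝ) : ℝ := ⨅ A, H A

/-- The least value over the assignments that make the literal `l` true. -/
noncomputable def mnL {n : ℕ} (H : (Fin n → Bool) → ℝ) (l : Lit n) : ℝ :=
  ⨅ A : Fin n → Bool, H (Function.update A l.1 l.2)

/-- The cost of the literal `l`. -/
noncomputable def hh {n : ℕ} (H : (Fin n → Bool) → ℝ) (l : Lit n) : ℝ := mnL H l - mn H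

/-- The truncated cost of the literal `l`. -/
noncomputable def xx {n : ℕ} (H : (Fin n → Bool) → ℝ) (l : Lit n) : ℝ := min 1 (hh H l)

open Classical in
/-- indicator of the violation of a clause -/
noncomputable def viol {n : ℕ} (c : Clause n) : (Fin n → Bool) → ℝ :=
  fun A => if SatC A c then 0 else 1

open Classical in
/-- the penalty `u` for a false literal -/
noncomputable def pen {n : ℕ} (l : Lit n) (u : ℝ) : (Fin n → Bool) → ℝ :=
  fun A => if Holds A l then 0 else u

theorem mn_le {n : ℕ} (H : (Fin n → Bool) → ℝ) (A : Fin n → Bool) : mn H ≤ H A :=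
  ciInf_le (Set.finite_range H).bddBelow A

theorem le_mn {n : ℕ} (H : (Fin n → Bool) → ℝ) (a : ℝ) (h : ∀ A, a ≤ H A) : a ≤ mn H :=
  le_ciInf h

theorem exists_mn {n : ℕ} (H : (Fin n → Bool) → ℝ) : ∃ A, H A = mn H := by
  obtain ⟨A, hA⟩ := Finite.exists_min H
  exact ⟨A, le_antisymm (le_mn H _ hA) (mn_le H A)⟩

theorem mnL_le {n : ℕ} (H : (Fin n → Bool) → ℝ) (l : Lit n) (A : Fin n → Bool) (h : Holds A l) :
    mnL H l ≤ H A := by
  have h1 : Function.update A l.1 l.2 = A := by
    unfold Holds at h; rw [← h]; exact Function.update_eq_self _ _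
  calc mnL H l ≤ H (Function.update A l.1 l.2) :=
        ciInf_le (Set.finite_range (fun A => H (Function.update A l.1 l.2))).bddBelow A
    _ = H A := by rw [h1]

theorem exists_mnL {n : ℕ} (H : (Fin n → Bool) → ℝ) (l : Lit n) :
    ∃ A, Holds A l ∧ H A = mnL H l := by
  obtain ⟨A, hA⟩ := Finite.exists_min (fun A : Fin n → Bool => H (Function.update A l.1 l.2))
  refine ⟨Function.update A l.1 l.2, by unfold Holds; simp, ?_⟩
  exact le_antisymm (le_ciInf hA)
    (ciInf_le (Set.finite_range (fun A => H (Function.update A l.1 l.2))).bddBelow A)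

theorem hh_nonneg {n : ℕ} (H : (Fin n → Bool) → ℝ) (l : Lit n) : 0 ≤ hh H l := by
  obtain ⟨A, _, hA⟩ := exists_mnL H l
  unfold hh
  rw [← hA]
  linarith [mn_le H A]

theorem hh_zero {n : ℕ} (H : (Fin n → Bool) → ℝ) (i : Fin n) :
    hh H (i, true) = 0 ∨ hh H (i, false) = 0 := by
  obtain ⟨A, hA⟩ := exists_mn H
  cases hb : A i with
  | true =>
    left
    apply le_antisymm _ (hh_nonneg H _)
    have := mnL_le H (i, true) A hb
    unfold hh; linarith
  | false =>
    right
    apply le_antisymm _ (hh_nonneg H _)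
    have := mnL_le H (i, false) A hb
    unfold hh; linarith

theorem xx_nonneg {n : ℕ} (H : (Fin n → Bool) → ℝ) (l : Lit n) : 0 ≤ xx H l :=
  le_min zero_le_one (hh_nonneg H l)

theorem xx_le_one {n : ℕ} (H : (Fin n → Bool) → ℝ) (l : Lit n) : xx H l ≤ 1 := min_le_left _ _

/-- two opposite literals -/
theorem xx_min_zero {n : ℕ} (H : (Fin n → Bool) → ℝ) (a b : Lit n) (h1 : a.1 = b.1) (h2 : a ≠ b) :
    min (xx H a) (xx H b) = 0 := by
  have h3 : xx H a = 0 ∨ xx H b = 0 := by
    obtain ⟨i, s⟩ := a
    obtain ⟨j, t⟩ := b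
    simp only at h1
    subst h1
    have hst : s ≠ t := fun h => h2 (by rw [h])
    have h0 := hh_zero H i
    have hz : ∀ l : Lit n, hh H l = 0 → xx H l = 0 := by
      intro l hl; unfold xx; rw [hl]; simp
    cases s <;> cases t
    · exact absurd rfl hst
    · rcases h0 with h | h
      · exact Or.inr (hz _ h)
      · exact Or.inl (hz _ h)
    · rcases h0 with h | h
      · exact Or.inl (hz _ h)
      · exact Or.inr (hz _ h)
    · exact absurd rfl hst
  rcases h3 with h | h
  · rw [h]; exact min_eq_left (xx_nonneg H b)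
  · rw [h]; exact min_eq_right (xx_nonneg H a)

/-- Adding a 2-clause. -/
theorem mn_viol_two {n : ℕ} (H : (Fin n → Bool) → ℝ) (a b : Lit n) :
    mn H + min (xx H a) (xx H b) ≤ mn (H + viol (Sum.inl (a, b))) := by
  apply le_mn
  intro A
  simp only [Pi.add_apply, viol]
  have e : ∀ l : Lit n, Holds A l → mn H + xx H l ≤ H A := by
    intro l hl
    have h1 := mnL_le H l A hl
    have h2 : xx H l ≤ hh H l := min_le_right _ _
    unfold hh at h2; linarith
  split_ifs with h
  · rcases h with h | h
    · have := e _ h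
      have h3 := min_le_left (xx H a) (xx H b)
      linarith
    · have := e _ h
      have h3 := min_le_right (xx H a) (xx H b)
      linarith
  · have h1 := mn_le H A
    have h2 := xx_le_one H a
    have h3 := min_le_left (xx H a) (xx H b)
    linarith

/-- Adding a 3-clause. -/
theorem mn_viol_three {n : ℕ} (H : (Fin n → Bool) → ℝ) (a b c : Lit n) :
    mn H + min (xx H a) (min (xx H b) (xx H c)) ≤ mn (H + viol (Sum.inr (a, b, c))) := by
  apply le_mn
  intro A
  simp only [Pi.add_apply, viol]
  have e : ∀ l : Lit n, Holds A l → mn H + xx H l ≤ H A := by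
    intro l hl
    have h1 := mnL_le H l A hl
    have h2 : xx H l ≤ hh H l := min_le_right _ _
    unfold hh at h2; linarith
  have m1 := min_le_left (xx H a) (min (xx H b) (xx H c))
  have m2 := min_le_right (xx H a) (min (xx H b) (xx H c))
  have m3 := min_le_left (xx H b) (xx H c)
  have m4 := min_le_right (xx H b) (xx H c)
  split_ifs with h
  · rcases h with h | h | h
    · have := e _ h; linarith
    · have := e _ h; linarith
    · have := e _ h; linarith
  · have h1 := mn_le H A
    have h2 := xx_le_one H a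
    linarith

/-- Adding a penalty at a literal. -/
theorem mn_pen_le {n : ℕ} (H : (Fin n → Bool) → ℝ) (l : Lit n) (u : ℝ) (hu0 : 0 ≤ u)
    (hu1 : u ≤ 1) : mn (H + pen l u) ≤ mn H + min u (xx H l) := by
  have h1 : mn (H + pen l u) ≤ mn H + u := by
    obtain ⟨A, hA⟩ := exists_mn H
    refine (mn_le _ A).trans ?_
    simp only [Pi.add_apply, pen, hA]
    split_ifs <;> linarith
  have h2 : mn (H + pen l u) ≤ mnL H l := by
    obtain ⟨A, hA, hA2⟩ := exists_mnL H l
    refine (mn_le _ A).trans ?_
    simp only [Pi.add_apply, pen, if_pos hA, hA2]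
    linarith
  have h3 : min u (xx H l) = min u (hh H l) := by
    unfold xx
    rw [← min_assoc, min_eq_left hu1]
  rw [h3]
  rcases le_total u (hh H l) with h | h
  · rw [min_eq_left h]; exact h1
  · rw [min_eq_right h]; unfold hh; linarith

theorem mn_mono {n : ℕ} {H H' : (Fin n → Bool) → ℝ} (h : ∀ A, H A ≤ H' A) : mn H ≤ mn H' :=
  le_mn _ _ (fun A => (mn_le H A).trans (h A))

theorem mn_add_le {n : ℕ} (H s : (Fin n → Bool) → ℝ) (hs : ∀ A, s A ≤ 1) :
    mn (H + s) ≤ mn H + 1 := by
  obtain ⟨A, hA⟩ := exists_mn H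
  refine (mn_le _ A).trans ?_
  simp only [Pi.add_apply, hA]
  linarith [hs A]

theorem le_mn_add {n : ℕ} (H s : (Fin n → Bool) → ℝ) (hs : ∀ A, 0 ≤ s A) :
    mn H ≤ mn (H + s) :=
  mn_mono (fun A => by simp only [Pi.add_apply]; linarith [hs A])

end Pool.Agent.H986R2.TwoP
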