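import Mathlib

open Finset

namespace Pool.Agent.H986R2.TwoP

/-- shift operator on functions -/
def shift {X : Type*} [AddCommMonoid X] (s : X) : Module.End ℝ (X → ℝ) where
  toFun Φ := fun H => Φ (H + s)
  map_add' _ _ := rfl
  map_smul' _ _ := rfl

theorem shift_apply {X : Type*} [AddCommMonoid X] (s : X) (Φ : X → ℝ) (H : X) :
    shift s Φ H = Φ (H + s) := rfl

theorem shift_comm {X : Type*} [AddCommMonoid X] (s t : X) : Commute (shift s) (shift t) := by
  apply LinearMap.ext
  intro Φ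
  funext H
  show Φ (H + s + t) = Φ (H + t + s)
  rw [add_right_comm]

/-- jump operator -/
noncomputable def jump {X ι : Type*} [AddCommMonoid X] [Fintype ι] (w : ι → ℝ) (s : ι → X) :
    Module.End ℝ (X → ℝ) := 1 + ∑ a, w a • (shift (s a) - 1)

theorem jump_apply {X ι : Type*} [AddCommMonoid X] [Fintype ι] (w : ι → ℝ) (s : ι → X)
    (Φ : X → ℝ) (H : X) :
    jump w s Φ H = Φ H + ∑ a, w a * (Φ (H + s a) - Φ H) := by
  unfold jump
  simp [LinearMap.add_apply, LinearMap.sum_apply, shift_apply]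

theorem jump_comm {X ι κ : Type*} [AddCommMonoid X] [Fintype ι] [Fintype κ] (w : ι → ℝ)
    (s : ι → X) (w' : κ → ℝ) (s' : κ → X) : Commute (jump w s) (jump w' s') := by
  unfold jump
  apply Commute.add_left (Commute.one_left _)
  apply Commute.sum_left
  intro a _
  apply Commute.smul_left
  apply Commute.sub_left _ (Commute.one_left _)
  apply Commute.add_right (Commute.one_right _)
  apply Commute.sum_right
  intro b _
  apply Commute.smul_right
  exact Commute.sub_right (shift_comm _ _) (Commute.one_right _)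

theorem jump_mono {X ι : Type*} [AddCommMonoid X] [Fintype ι] (w : ι → ℝ) (s : ι → X)
    (hw : ∀ a, 0 ≤ w a) (hw1 : ∑ a, w a ≤ 1) {Φ Ψ : X → ℝ} (h : ∀ H, Φ H ≤ Ψ H) (H : X) :
    jump w s Φ H ≤ jump w s Ψ H := by
  rw [jump_apply, jump_apply]
  have e : ∀ Φ : X → ℝ, Φ H + ∑ a, w a * (Φ (H + s a) - Φ H)
      = (1 - ∑ a, w a) * Φ H + ∑ a, w a * Φ (H + s a) := by
    intro Φ
    simp only [mul_sub, sum_sub_distrib, ← sum_mul]
    ring
  rw [e, e]
  apply add_le_add
  · exact mul_le_mul_of_nonneg_left (h H) (by linarith)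
  · exact sum_le_sum (fun a _ => mul_le_mul_of_nonneg_left (h _) (hw a))

theorem jump_const {X ι : Type*} [AddCommMonoid X] [Fintype ι] (w : ι → ℝ) (s : ι → X) (c : ℝ) :
    jump w s (fun _ => c) = fun _ => c := by
  funext H
  rw [jump_apply]; simp

theorem jump_add_const {X ι : Type*} [AddCommMonoid X] [Fintype ι] (w : ι → ℝ) (s : ι → X)
    (Φ : X → ℝ) (c : ℝ) (H : X) :
    jump w s (fun H => Φ H + c) H = jump w s Φ H + c := by
  rw [jump_apply, jump_apply]; simp; ring

theorem pow_mono {X ι : Type*} [AddCommMonoid X] [Fintype ι] (w : ι → ℝ) (s : ι → X)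
    (hw : ∀ a, 0 ≤ w a) (hw1 : ∑ a, w a ≤ 1) {Φ Ψ : X → ℝ} (h : ∀ H, Φ H ≤ Ψ H) (T : ℕ) (H : X) :
    (jump w s ^ T) Φ H ≤ (jump w s ^ T) Ψ H := by
  induction T generalizing H with
  | zero => simpa using h H
  | succ T ih =>
    rw [pow_succ']
    exact jump_mono w s hw hw1 ih H

theorem pow_add_const {X ι : Type*} [AddCommMonoid X] [Fintype ι] (w : ι → ℝ) (s : ι → X)
    (Φ : X → ℝ) (c : ℝ) (T : ℕ) (H : X) :
    (jump w s ^ T) (fun H => Φ H + c) H = (jump w s ^ T) Φ H + c := by
  induction T generalizing H with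
  | zero => simp
  | succ T ih =>
    rw [pow_succ']
    show jump w s ((jump w s ^ T) (fun H => Φ H + c)) H = jump w s ((jump w s ^ T) Φ) H + c
    have e : (jump w s ^ T) (fun H => Φ H + c) = fun H => (jump w s ^ T) Φ H + c := funext ih
    rw [e, jump_add_const]

/-- The interpolation principle. -/
theorem interp {X ι κ : Type*} [AddCommMonoid X] [Fintype ι] [Fintype κ] (w : ι → ℝ)
    (s : ι → X) (w' : κ → ℝ) (s' : κ → X)
    (hw : ∀ a, 0 ≤ w a) (hw1 : ∑ a, w a ≤ 1) (hw' : ∀ a, 0 ≤ w' a) (hw1' : ∑ a, w' a ≤ 1)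
    (φ : X → ℝ) (c : ℝ) (h : ∀ H, jump w' s' φ H ≤ jump w s φ H + c) (T : ℕ) (H : X) :
    (jump w' s' ^ T) φ H ≤ (jump w s ^ T) φ H + T * c := by
  induction T generalizing H with
  | zero => simp
  | succ T ih =>
    have h1 : (jump w' s' ^ (T + 1)) φ H = jump w' s' ((jump w' s' ^ T) φ) H := by
      rw [pow_succ']; rfl
    have h2 : jump w' s' ((jump w' s' ^ T) φ) H
        ≤ jump w' s' (fun H => (jump w s ^ T) φ H + T * c) H := jump_mono w' s' hw' hw1' ih H
    rw [jump_add_const] at h2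
    have h3 : jump w' s' ((jump w s ^ T) φ) H = (jump w s ^ T) (jump w' s' φ) H := by
      have := (jump_comm w' s' w s).pow_right T
      have := congrArg (fun L : Module.End ℝ (X → ℝ) => L φ H) this.eq
      exact this
    have h4 : (jump w s ^ T) (jump w' s' φ) H
        ≤ (jump w s ^ T) (fun H => jump w s φ H + c) H := pow_mono w s hw hw1 h T H
    rw [pow_add_const] at h4
    have h5 : (jump w s ^ T) (jump w s φ) H = (jump w s ^ (T + 1)) φ H := by
      rw [pow_succ]; rfl
    rw [h1]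
    push_cast
    linarith

end Pool.Agent.H986R2.TwoP
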