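import Pool.Agent.H986R2.TwoP.Min
import Pool.Agent.H986R2.TwoP.Ops

open Finset

namespace Pool.Agent.H986R2.TwoP

/-- separable functions -/
def sep {n : ℕ} (h : Fin n → Bool → ℝ) : (Fin n → Bool) → ℝ := fun A => ∑ i, h i (A i)

/-- the minimum at one site -/
noncomputable def mu (x : Bool → ℝ) : ℝ := min (x true) (x false)

/-- the penalty at one site -/
def ee (b' : Bool) (u : ℝ) : Bool → ℝ := fun b => if b = b' then 0 else u

theorem mu_le (x : Bool → ℝ) (b : Bool) : mu x ≤ x b := by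
  unfold mu
  cases b
  · exact min_le_right _ _
  · exact min_le_left _ _

theorem exists_mu (x : Bool → ℝ) : ∃ b, x b = mu x := by
  unfold mu
  rcases le_total (x true) (x false) with h | h
  · exact ⟨true, (min_eq_left h).symm⟩
  · exact ⟨false, (min_eq_right h).symm⟩

theorem mn_sep {n : ℕ} (h : Fin n → Bool → ℝ) : mn (sep h) = ∑ i, mu (h i) := by
  apply le_antisymm
  · choose b hb using fun i => exists_mu (h i)
    refine (mn_le _ b).trans (le_of_eq ?_)
    exact sum_congr rfl (fun i _ => hb i)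
  · apply le_mn
    intro A
    exact sum_le_sum (fun i _ => mu_le _ _)

theorem sep_add_pen {n : ℕ} (h : Fin n → Bool → ℝ) (l : Lit n) (u : ℝ) :
    sep h + pen l u = sep (Function.update h l.1 (h l.1 + ee l.2 u)) := by
  funext A
  simp only [Pi.add_apply, sep, pen]
  have h1 : ∑ i, h i (A i) = h l.1 (A l.1) + ∑ i ∈ univ.erase l.1, h i (A i) :=
    (add_sum_erase univ (fun i => h i (A i)) (mem_univ l.1)).symm
  have h2 : ∑ i, Function.update h l.1 (h l.1 + ee l.2 u) i (A i)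
      = (h l.1 + ee l.2 u) (A l.1) + ∑ i ∈ univ.erase l.1, h i (A i) := by
    rw [← add_sum_erase univ _ (mem_univ l.1)]
    congr 1
    · rw [Function.update_self]
    · apply sum_congr rfl
      intro i hi
      rw [Function.update_of_ne (ne_of_mem_erase hi)]
  rw [h1, h2]
  simp only [Pi.add_apply, ee, Holds]
  ring

/-- the one-site operator -/
noncomputable def K {I : Type*} [Fintype I] (n : ℕ) (ω u : I → ℝ) :
    Module.End ℝ ((Bool → ℝ) → ℝ) :=
  jump (fun x : Bool × I => ω x.2 / (2 * n)) (fun x => ee x.1 (u x.2))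

theorem sep_step {I : Type*} [Fintype I] {n : ℕ} (ω u : I → ℝ)
    (Φ : ((Fin n → Bool) → ℝ) → ℝ) (ν : (Bool → ℝ) → ℝ)
    (hΦ : ∀ h : Fin n → Bool → ℝ, Φ (sep h) = ∑ i, ν (h i)) (h : Fin n → Bool → ℝ) :
    jump (fun x : Lit n × I => ω x.2 / (2 * n)) (fun x => pen x.1 (u x.2)) Φ (sep h)
      = ∑ i, K n ω u ν (h i) := by
  rw [jump_apply, hΦ]
  unfold K
  simp only [jump_apply]
  rw [sum_add_distrib]
  congr 1
  rw [Fintype.sum_prod_type, Fintype.sum_prod_type]
  apply sum_congr rfl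
  intro i _
  rw [Fintype.sum_prod_type]
  apply sum_congr rfl
  intro b _
  apply sum_congr rfl
  intro t _
  simp only
  rw [sep_add_pen, hΦ]
  congr 1
  have h2 : ∑ j, ν (Function.update h i (h i + ee b (u t)) j)
      = ν (h i + ee b (u t)) + ∑ j ∈ univ.erase i, ν (h j) := by
    rw [← add_sum_erase univ _ (mem_univ i)]
    congr 1
    · rw [Function.update_self]
    · apply sum_congr rfl
      intro j hj
      rw [Function.update_of_ne (ne_of_mem_erase hj)]
  have h3 : ∑ j, ν (h j) = ν (h i) + ∑ j ∈ univ.erase i, ν (h j) :=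
    (add_sum_erase univ (fun j => ν (h j)) (mem_univ i)).symm
  rw [h2, h3]
  ring

theorem sep_pow {I : Type*} [Fintype I] {n : ℕ} (ω u : I → ℝ) (T : ℕ)
    (h : Fin n → Bool → ℝ) :
    (jump (fun x : Lit n × I => ω x.2 / (2 * n)) (fun x => pen x.1 (u x.2)) ^ T) mn (sep h)
      = ∑ i, (K n ω u ^ T) mu (h i) := by
  induction T generalizing h with
  | zero => simpa using mn_sep h
  | succ T ih =>
    rw [pow_succ']
    have := sep_step ω u ((jump (fun x : Lit n × I => ω x.2 / (2 * n))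
      (fun x => pen x.1 (u x.2)) ^ T) mn) ((K n ω u ^ T) mu) ih h
    rw [pow_succ']
    exact this

theorem sep_zero {n : ℕ} : sep (fun _ _ => 0 : Fin n → Bool → ℝ) = 0 := by
  funext A; simp [sep]

/-- the hitting operator -/
noncomputable def Q {I : Type*} [Fintype I] (ω u : I → ℝ) : Module.End ℝ ((Bool → ℝ) → ℝ) :=
  ∑ x : Bool × I, (ω x.2 / 2) • shift (ee x.1 (u x.2))

theorem Q_apply {I : Type*} [Fintype I] (ω u : I → ℝ) (Φ : (Bool → ℝ) → ℝ) (x : Bool → ℝ) :
    Q ω u Φ x = ∑ b : Bool, ∑ t : I, ω t / 2 * Φ (x + ee b (u t)) := by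
  unfold Q
  rw [LinearMap.sum_apply]
  simp only [Finset.sum_apply, LinearMap.smul_apply, Pi.smul_apply, shift_apply, smul_eq_mul]
  rw [Fintype.sum_prod_type]

theorem K_eq {I : Type*} [Fintype I] (n : ℕ) (hn : 0 < n) (ω u : I → ℝ) :
    K n ω u = (1 / n : ℝ) • Q ω u + (1 - (∑ t, ω t) / n) • 1 := by
  apply LinearMap.ext
  intro Φ
  funext x
  have hn0 : (n : ℝ) ≠ 0 := by positivity
  unfold K
  rw [jump_apply]
  simp only [LinearMap.add_apply, LinearMap.smul_apply, Pi.add_apply, Pi.smul_apply, smul_eq_mul,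
    Module.End.one_apply]
  rw [Q_apply, Fintype.sum_prod_type, mul_sum]
  simp only [mul_sub, sum_sub_distrib]
  have e1 : ∀ b : Bool, (1 / n : ℝ) * ∑ t : I, ω t / 2 * Φ (x + ee b (u t))
      = ∑ t : I, ω t / (2 * n) * Φ (x + ee b (u t)) := by
    intro b
    rw [mul_sum]
    apply sum_congr rfl
    intro t _
    field_simp
  simp only [e1]
  have e2 : ∑ _b : Bool, ∑ t : I, ω t / (2 * n) * Φ x = (∑ t, ω t) / n * Φ x := by
    rw [sum_const, card_univ, Fintype.card_bool, ← sum_mul, ← sum_div]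
    simp only [nsmul_eq_mul]
    push_cast
    field_simp
  rw [e2]
  ring

theorem Q_pow_nonneg {I : Type*} [Fintype I] (ω u : I → ℝ) (hω : ∀ t, 0 ≤ ω t)
    (hu : ∀ t, 0 ≤ u t) (j : ℕ) (x : Bool → ℝ) (hx : ∀ b, 0 ≤ x b) : 0 ≤ (Q ω u ^ j) mu x := by
  induction j generalizing x with
  | zero => exact le_min (hx true) (hx false)
  | succ j ih =>
    rw [pow_succ']
    show 0 ≤ Q ω u ((Q ω u ^ j) mu) x
    rw [Q_apply]
    apply sum_nonneg
    intro b _
    apply sum_nonneg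
    intro t _
    apply mul_nonneg (div_nonneg (hω t) zero_le_two)
    apply ih
    intro b'
    simp only [Pi.add_apply, ee]
    have h1 := hx b'
    have h2 := hu t
    split_ifs <;> linarith

theorem Q_two {I : Type*} [Fintype I] (ω u : I → ℝ) (hu : ∀ t, 0 ≤ u t) :
    (Q ω u ^ 2) mu 0 = 1 / 2 * ∑ s, ∑ t, ω s * ω t * min (u s) (u t) := by
  rw [pow_two]
  show Q ω u (Q ω u mu) 0 = _
  rw [Q_apply]
  simp only [Q_apply, Fintype.sum_bool, mu, Pi.add_apply, ee, Pi.zero_apply]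
  simp only [if_true, reduceCtorEq, if_false, zero_add, add_zero]
  have e1 : ∀ s t, min 0 (u s + u t) = 0 := fun s t => min_eq_left (add_nonneg (hu s) (hu t))
  have e2 : ∀ s t, min (u s + u t) 0 = 0 := fun s t => min_eq_right (add_nonneg (hu s) (hu t))
  simp only [e1, e2, mul_zero, sum_const_zero, zero_add, add_zero]
  rw [mul_sum, ← sum_add_distrib]
  apply sum_congr rfl
  intro s _
  rw [mul_sum, mul_sum, mul_sum, ← sum_add_distrib]
  apply sum_congr rfl
  intro t _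
  rw [min_comm (u t)]
  ring

theorem Q_three {I : Type*} [Fintype I] (ω u : I → ℝ) (hu : ∀ t, 0 ≤ u t) :
    (Q ω u ^ 3) mu 0
      = 3 / 4 * ∑ r, ∑ s, ∑ t, ω r * ω s * ω t * min (u r) (u s + u t) := by
  rw [pow_succ', pow_two]
  show Q ω u (Q ω u (Q ω u mu)) 0 = _
  rw [Q_apply]
  simp only [Q_apply, Fintype.sum_bool, mu, Pi.add_apply, ee, Pi.zero_apply]
  simp only [if_true, reduceCtorEq, if_false, zero_add, add_zero]
  have e1 : ∀ r s t, min 0 (u r + u s + u t) = 0 :=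
    fun r s t => min_eq_left (add_nonneg (add_nonneg (hu r) (hu s)) (hu t))
  have e2 : ∀ r s t, min (u r + u s + u t) 0 = 0 :=
    fun r s t => min_eq_right (add_nonneg (add_nonneg (hu r) (hu s)) (hu t))
  simp only [e1, e2, mul_zero, sum_const_zero, zero_add, add_zero]
  set Z := ∑ r, ∑ s, ∑ t, ω r * ω s * ω t * min (u r) (u s + u t) with hZ
  have f1 : ∀ (g : I → I → I → ℝ), ∑ r, ω r / 2 * ∑ s, ω s / 2 * ∑ t, ω t / 2 * g r s t
      = 1 / 8 * ∑ r, ∑ s, ∑ t, ω r * ω s * ω t * g r s t := by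
    intro g
    rw [mul_sum]
    refine sum_congr rfl fun r _ => ?_
    rw [mul_sum, mul_sum]
    refine sum_congr rfl fun s _ => ?_
    rw [mul_sum, mul_sum, mul_sum]
    refine sum_congr rfl fun t _ => ?_
    ring
  -- the six sign patterns
  have g1 : ∑ r, ∑ s, ∑ t, ω r * ω s * ω t * min (u t) (u r + u s) = Z := by
    rw [hZ]
    rw [show (∑ r, ∑ s, ∑ t, ω r * ω s * ω t * min (u t) (u r + u s))
      = ∑ r, ∑ t, ∑ s, ω r * ω s * ω t * min (u t) (u r + u s) from
      sum_congr rfl fun r _ => sum_comm]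
    rw [sum_comm]
    refine sum_congr rfl fun r _ => ?_
    refine sum_congr rfl fun s _ => ?_
    refine sum_congr rfl fun t _ => ?_
    ring
  have g2 : ∑ r, ∑ s, ∑ t, ω r * ω s * ω t * min (u s) (u r + u t) = Z := by
    rw [hZ, sum_comm]
    refine sum_congr rfl fun r _ => ?_
    refine sum_congr rfl fun s _ => ?_
    refine sum_congr rfl fun t _ => ?_
    ring
  simp only [mul_add, sum_add_distrib]
  simp only [f1]
  have h1 : ∀ r s t, min (u r + u s) (u t) = min (u t) (u r + u s) := fun r s t => min_comm _ _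
  have h2 : ∀ r s t, min (u r + u t) (u s) = min (u s) (u r + u t) := fun r s t => min_comm _ _
  have h3 : ∀ r s t, min (u s + u t) (u r) = min (u r) (u s + u t) := fun r s t => min_comm _ _
  simp only [h1, g1, g2, ← hZ]
  ring

theorem term_eval {X : Type*} (Q : Module.End ℝ (X → ℝ)) (a b : ℝ) (m k c : ℕ) (Φ : X → ℝ)
    (x : X) : ((a • Q) ^ m * (b • (1 : Module.End ℝ (X → ℝ))) ^ k * (c : Module.End ℝ (X → ℝ))) Φ x
      = c * a ^ m * b ^ k * (Q ^ m) Φ x := by
  have hc : (c : Module.End ℝ (X → ℝ)) = (c : ℝ) • (1 : Module.End ℝ (X → ℝ)) := by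
    apply LinearMap.ext
    intro Ψ
    rw [Module.End.natCast_apply, LinearMap.smul_apply, Module.End.one_apply,
      Nat.cast_smul_eq_nsmul]
  rw [smul_pow, smul_pow, one_pow, hc]
  simp only [Module.End.mul_apply, LinearMap.smul_apply, Module.End.one_apply, Pi.smul_apply,
    smul_eq_mul, map_smul]
  ring

theorem K_pow_lower {I : Type*} [Fintype I] (n T : ℕ) (hn : 0 < n) (hT : 3 ≤ T) (ω u : I → ℝ)
    (hω : ∀ t, 0 ≤ ω t) (hu : ∀ t, 0 ≤ u t) (hW : ∑ t, ω t ≤ n) :
    (T.choose 2 : ℝ) * (1 / n) ^ 2 * (1 - (∑ t, ω t) / n) ^ T * (Q ω u ^ 2) mu 0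
      + (T.choose 3 : ℝ) * (1 / n) ^ 3 * (1 - (∑ t, ω t) / n) ^ T * (Q ω u ^ 3) mu 0
      ≤ (K n ω u ^ T) mu 0 := by
  have hn0 : (0 : ℝ) < n := by exact_mod_cast hn
  rw [K_eq n hn]
  set y : ℝ := 1 - (∑ t, ω t) / n with hy
  have hy0 : 0 ≤ y := by rw [hy, sub_nonneg, div_le_one hn0]; exact hW
  have hy1 : y ≤ 1 := by
    rw [hy]
    have : 0 ≤ (∑ t, ω t) / n := div_nonneg (sum_nonneg (fun t _ => hω t)) hn0.le
    linarith
  have hcomm : Commute ((1 / n : ℝ) • Q ω u) (y • (1 : Module.End ℝ ((Bool → ℝ) → ℝ))) :=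
    (Commute.one_right _).smul_right y
  rw [hcomm.add_pow]
  have h1 : (∑ m ∈ range (T + 1), ((1 / n : ℝ) • Q ω u) ^ m *
      (y • (1 : Module.End ℝ ((Bool → ℝ) → ℝ))) ^ (T - m) *
      ((T.choose m : ℕ) : Module.End ℝ ((Bool → ℝ) → ℝ))) mu 0
      = ∑ m ∈ range (T + 1), (T.choose m : ℝ) * (1 / n) ^ m * y ^ (T - m) *
        (Q ω u ^ m) mu 0 := by
    rw [LinearMap.sum_apply, Finset.sum_apply]
    apply sum_congr rfl
    intro m _
    rw [term_eval]
  rw [h1]
  have hnn : ∀ m, 0 ≤ (Q ω u ^ m) mu 0 := fun m => Q_pow_nonneg ω u hω hu m 0 (fun b => le_rfl)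
  have h2 : ∀ m ≤ T, (T.choose m : ℝ) * (1 / n) ^ m * y ^ T * (Q ω u ^ m) mu 0
      ≤ (T.choose m : ℝ) * (1 / n) ^ m * y ^ (T - m) * (Q ω u ^ m) mu 0 := by
    intro m hm
    have h3 : y ^ T ≤ y ^ (T - m) := pow_le_pow_of_le_one hy0 hy1 (Nat.sub_le _ _)
    have := hnn m
    gcongr
  have h4 : ({2, 3} : Finset ℕ) ⊆ range (T + 1) := by
    intro m hm
    simp only [mem_insert, mem_singleton] at hm
    rw [mem_range]; omega
  have h5 : ∑ m ∈ ({2, 3} : Finset ℕ), (T.choose m : ℝ) * (1 / n) ^ m * y ^ (T - m) *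
        (Q ω u ^ m) mu 0
      ≤ ∑ m ∈ range (T + 1), (T.choose m : ℝ) * (1 / n) ^ m * y ^ (T - m) *
        (Q ω u ^ m) mu 0 := by
    apply sum_le_sum_of_subset_of_nonneg h4
    intro m _ _
    have := hnn m
    positivity
  refine le_trans ?_ h5
  rw [sum_pair (by norm_num)]
  exact add_le_add (h2 2 (by omega)) (h2 3 (by omega))

end Pool.Agent.H986R2.TwoP
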