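import Pool.Agent.H986R2.TwoP.Step
import Pool.Agent.H986R2.TwoP.Sep

open Finset

namespace Pool.Agent.H986R2.TwoP

theorem wt_nonneg (n : ℕ) (p : ℝ) (hp0 : 0 ≤ p) (hp1 : p ≤ 1) (c : Clause n) : 0 ≤ wt n p c := by
  have : 0 ≤ 1 - p := by linarith
  rcases c with c | c <;> simp only [wt] <;> split_ifs <;> positivity

theorem wt_sum (n : ℕ) (hn : 3 ≤ n) (p : ℝ) : ∑ c : Clause n, wt n p c = 1 := by
  rw [Fintype.sum_sum_type]
  have h2 : (0 : ℝ) < (two n).card := by exact_mod_cast two_pos n hn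
  have h3 : (0 : ℝ) < (three n).card := by exact_mod_cast three_pos n hn
  simp only [wt]
  rw [← sum_filter, ← sum_filter]
  have f2 : univ.filter (fun c => c ∈ two n) = two n := by ext c; simp
  have f3 : univ.filter (fun c => c ∈ three n) = three n := by ext c; simp
  rw [f2, f3, sum_const, sum_const, nsmul_eq_mul, nsmul_eq_mul]
  field_simp
  ring

/-- adding one random clause -/
noncomputable def AA (n : ℕ) (p : ℝ) : Module.End ℝ (((Fin n → Bool) → ℝ) → ℝ) :=
  jump (wt n p) viol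

theorem AA_apply (n : ℕ) (hn : 3 ≤ n) (p : ℝ) (Φ : ((Fin n → Bool) → ℝ) → ℝ)
    (H : (Fin n → Bool) → ℝ) : AA n p Φ H = ∑ c, wt n p c * Φ (H + viol c) := by
  unfold AA
  rw [jump_apply]
  simp only [mul_sub, sum_sub_distrib, ← sum_mul, wt_sum n hn p]
  ring

theorem AA_pow (n : ℕ) (hn : 3 ≤ n) (p : ℝ) (Φ : ((Fin n → Bool) → ℝ) → ℝ) (m : ℕ)
    (H : (Fin n → Bool) → ℝ) :
    (AA n p ^ m) Φ H
      = ∑ f : Fin m → Clause n, (∏ i, wt n p (f i)) * Φ (H + ∑ i, viol (f i)) := by
  induction m generalizing H with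
  | zero => simp
  | succ m ih =>
    rw [pow_succ']
    show AA n p ((AA n p ^ m) Φ) H = _
    rw [AA_apply n hn]
    simp only [ih]
    rw [← (Fin.consEquiv (fun _ => Clause n)).sum_comp, Fintype.sum_prod_type]
    apply sum_congr rfl
    intro c _
    rw [mul_sum]
    apply sum_congr rfl
    intro f _
    simp only [Fin.consEquiv_apply]
    rw [Fin.prod_univ_succ, Fin.sum_univ_succ]
    simp only [Fin.cons_zero, Fin.cons_succ]
    rw [add_assoc]
    ring

open Classical in
theorem probSat_eq (n : ℕ) (hn : 3 ≤ n) (p : ℝ) (m : ℕ) :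
    probSat n m p = (AA n p ^ m) (fun H => if ∃ A, H A = 0 then 1 else 0) 0 := by
  rw [AA_pow n hn]
  unfold probSat
  apply sum_congr rfl
  intro f _
  congr 1
  have : (∃ A : Fin n → Bool, ∀ i, SatC A (f i)) ↔
      ∃ A : Fin n → Bool, (0 + ∑ i, viol (f i) : (Fin n → Bool) → ℝ) A = 0 := by
    apply exists_congr
    intro A
    rw [zero_add, Finset.sum_apply]
    rw [sum_eq_zero_iff_of_nonneg]
    · constructor
      · intro h i _
        simp only [viol]
        rw [if_pos (h i)]
      · intro h i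
        have := h i (mem_univ i)
        simp only [viol] at this
        by_contra hcon
        rw [if_neg hcon] at this
        norm_num at this
    · intro i _
      simp only [viol]
      split_ifs <;> norm_num
  simp only [this]

theorem viol_nonneg {n : ℕ} (c : Clause n) (A : Fin n → Bool) : 0 ≤ viol c A := by
  unfold viol; split_ifs <;> norm_num

theorem viol_le_one {n : ℕ} (c : Clause n) (A : Fin n → Bool) : viol c A ≤ 1 := by
  unfold viol; split_ifs <;> norm_num

theorem AA_pow_mono (n : ℕ) (hn : 3 ≤ n) (p : ℝ) (hp0 : 0 ≤ p) (hp1 : p ≤ 1)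
    {Φ Ψ : ((Fin n → Bool) → ℝ) → ℝ} (h : ∀ H, Φ H ≤ Ψ H) (m : ℕ) (H : (Fin n → Bool) → ℝ) :
    (AA n p ^ m) Φ H ≤ (AA n p ^ m) Ψ H :=
  pow_mono _ _ (wt_nonneg n p hp0 hp1) (wt_sum n hn p).le h m H

/-- increments of the mean minimum -/
theorem AA_mn (n : ℕ) (hn : 3 ≤ n) (p : ℝ) (hp0 : 0 ≤ p) (hp1 : p ≤ 1) (m : ℕ)
    (H : (Fin n → Bool) → ℝ) :
    (AA n p ^ m) mn H ≤ (AA n p ^ (m + 1)) mn H ∧
      (AA n p ^ (m + 1)) mn H ≤ (AA n p ^ m) mn H + 1 := by
  have e : (AA n p ^ (m + 1)) mn H = (AA n p ^ m) (AA n p mn) H := by rw [pow_succ]; rfl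
  rw [e]
  constructor
  · apply AA_pow_mono n hn p hp0 hp1
    intro H'
    rw [AA_apply n hn]
    calc mn H' = ∑ c, wt n p c * mn H' := by rw [← sum_mul, wt_sum n hn, one_mul]
      _ ≤ _ := sum_le_sum (fun c _ => mul_le_mul_of_nonneg_left (le_mn_add H' _ (viol_nonneg c))
          (wt_nonneg n p hp0 hp1 c))
  · have h1 : (AA n p ^ m) mn H + 1 = (AA n p ^ m) (fun H => mn H + 1) H := by
      unfold AA; rw [pow_add_const]
    rw [h1]
    apply AA_pow_mono n hn p hp0 hp1
    intro H'
    rw [AA_apply n hn]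
    calc ∑ c, wt n p c * mn (H' + viol c) ≤ ∑ c, wt n p c * (mn H' + 1) :=
          sum_le_sum (fun c _ => mul_le_mul_of_nonneg_left (mn_add_le H' _ (viol_le_one c))
          (wt_nonneg n p hp0 hp1 c))
      _ = mn H' + 1 := by rw [← sum_mul, wt_sum n hn, one_mul]

theorem psi_lip (ψ : ℕ → ℝ) (h : ∀ m, ψ m ≤ ψ (m + 1) ∧ ψ (m + 1) ≤ ψ m + 1) (j m : ℕ) :
    ψ j ≤ ψ m + |(j : ℝ) - m| := by
  have h1 : ∀ d : ℕ, ∀ m, ψ m ≤ ψ (m + d) ∧ ψ (m + d) ≤ ψ m + d := by
    intro d
    induction d with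
    | zero => intro m; simp
    | succ d ih =>
      intro m
      have a := ih m
      have b := h (m + d)
      rw [← add_assoc]
      push_cast
      constructor <;> linarith
  rcases le_total j m with hjm | hjm
  · obtain ⟨d, rfl⟩ := Nat.exists_eq_add_of_le hjm
    have := (h1 d j).1
    have := abs_nonneg ((j : ℝ) - (j + d : ℕ))
    linarith
  · obtain ⟨d, rfl⟩ := Nat.exists_eq_add_of_le hjm
    have := (h1 d m).2
    have e : |((m + d : ℕ) : ℝ) - m| = d := by
      push_cast
      rw [add_sub_cancel_left, abs_of_nonneg (by positivity)]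
    rw [e]; linarith

/-- the lazy operator -/
theorem lazy_eq (n : ℕ) (p : ℝ) :
    jump (fun c => 1 / 3 * wt n p c) viol
      = (1 / 3 : ℝ) • AA n p + (2 / 3 : ℝ) • (1 : Module.End ℝ (((Fin n → Bool) → ℝ) → ℝ)) := by
  apply LinearMap.ext
  intro Φ
  funext H
  unfold AA
  rw [jump_apply]
  simp only [LinearMap.add_apply, LinearMap.smul_apply, Pi.add_apply, Pi.smul_apply, smul_eq_mul,
    Module.End.one_apply]
  rw [jump_apply, mul_add, mul_sum]
  have : ∀ c : Clause n, 1 / 3 * wt n p c * (Φ (H + viol c) - Φ H)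
      = 1 / 3 * (wt n p c * (Φ (H + viol c) - Φ H)) := fun c => by ring
  simp only [this]
  ring

theorem binom_sum (T : ℕ) (x : ℝ) :
    ∑ j ∈ range (T + 1), (T.choose j : ℝ) * x ^ j * (1 - x) ^ (T - j) = 1 := by
  have h := add_pow x (1 - x) T
  have e : x + (1 - x) = 1 := by ring
  rw [e, one_pow] at h
  refine Eq.trans (sum_congr rfl fun j _ => ?_) h.symm
  ring

theorem binom_var (T : ℕ) (x : ℝ) :
    ∑ j ∈ range (T + 1), (T.choose j : ℝ) * x ^ j * (1 - x) ^ (T - j) * ((j : ℝ) - T * x) ^ 2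
      = T * x * (1 - x) := by
  have h := congrArg (fun P : Polynomial ℝ => P.eval x) (bernsteinPolynomial.variance ℝ T)
  simp only [Polynomial.eval_finsetSum, Polynomial.eval_mul, Polynomial.eval_pow,
    Polynomial.eval_sub, Polynomial.eval_smul, Polynomial.eval_X, Polynomial.eval_one,
    Polynomial.eval_natCast, bernsteinPolynomial, nsmul_eq_mul] at h
  rw [← h]
  apply sum_congr rfl
  intro j _
  ring

/-- Comparison of the lazy chain with exactly `m` clauses. -/
theorem lazy_le (n : ℕ) (hn : 3 ≤ n) (p : ℝ) (hp0 : 0 ≤ p) (hp1 : p ≤ 1) (m : ℕ) (a : ℝ)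
    (ha : 0 < a) :
    (jump (fun c => 1 / 3 * wt n p c) viol ^ (3 * m)) mn 0
      ≤ (AA n p ^ m) mn 0 + m / (3 * a) + a / 2 := by
  rw [lazy_eq]
  have hcomm : Commute ((1 / 3 : ℝ) • AA n p)
      ((2 / 3 : ℝ) • (1 : Module.End ℝ (((Fin n → Bool) → ℝ) → ℝ))) :=
    (Commute.one_right _).smul_right _
  rw [hcomm.add_pow, LinearMap.sum_apply, Finset.sum_apply]
  simp only [term_eval]
  set ψ : ℕ → ℝ := fun j => (AA n p ^ j) mn 0 with hψ
  have hlip := psi_lip ψ (fun m => AA_mn n hn p hp0 hp1 m 0)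
  have h23 : (2 / 3 : ℝ) = 1 - 1 / 3 := by norm_num
  rw [h23]
  set W : ℕ → ℝ := fun j => ((3 * m).choose j : ℝ) * (1 / 3) ^ j * (1 - 1 / 3) ^ (3 * m - j) with hW
  have hW0 : ∀ j, 0 ≤ W j := fun j => by rw [hW]; positivity
  have hs1 : ∑ j ∈ range (3 * m + 1), W j = 1 := binom_sum (3 * m) (1 / 3)
  have hs2 : ∑ j ∈ range (3 * m + 1), W j * ((j : ℝ) - m) ^ 2 = m * (2 / 3) := by
    have := binom_var (3 * m) (1 / 3)
    push_cast at this
    have e : (3 * (m : ℝ)) * (1 / 3) = m := by ring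
    rw [e] at this
    rw [this]; norm_num
  calc ∑ j ∈ range (3 * m + 1), ((3 * m).choose j : ℝ) * (1 / 3) ^ j * (1 - 1 / 3) ^ (3 * m - j) *
        (AA n p ^ j) mn 0
      ≤ ∑ j ∈ range (3 * m + 1), W j * (ψ m + (((j : ℝ) - m) ^ 2 / (2 * a) + a / 2)) := by
        apply sum_le_sum
        intro j _
        apply mul_le_mul_of_nonneg_left _ (hW0 j)
        refine (hlip j m).trans ?_
        have h5 : |(j : ℝ) - m| ≤ ((j : ℝ) - m) ^ 2 / (2 * a) + a / 2 := by
          have h6 : 0 ≤ (|(j : ℝ) - m| - a) ^ 2 := sq_nonneg _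
          have h7 : |(j : ℝ) - m| ^ 2 = ((j : ℝ) - m) ^ 2 := sq_abs _
          have h8 : ((j : ℝ) - m) ^ 2 / (2 * a) + a / 2
              = (((j : ℝ) - m) ^ 2 + a ^ 2) / (2 * a) := by field_simp
          rw [h8, le_div_iff₀ (by positivity), ← h7]
          nlinarith
        linarith
    _ = ψ m * ∑ j ∈ range (3 * m + 1), W j
        + (∑ j ∈ range (3 * m + 1), W j * ((j : ℝ) - m) ^ 2) / (2 * a)
        + a / 2 * ∑ j ∈ range (3 * m + 1), W j := by
        rw [mul_sum, mul_sum, sum_div, ← sum_add_distrib, ← sum_add_distrib]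
        apply sum_congr rfl
        intro j _
        ring
    _ = _ := by
        rw [hs1, hs2]
        simp only [hψ]
        field_simp

/-- Variance bound. -/
theorem var_le (n : ℕ) (hn : 3 ≤ n) (p : ℝ) (hp0 : 0 ≤ p) (hp1 : p ≤ 1) (m : ℕ)
    (H : (Fin n → Bool) → ℝ) :
    (AA n p ^ m) (fun H => mn H ^ 2) H ≤ ((AA n p ^ m) mn H) ^ 2 + m := by
  induction m generalizing H with
  | zero => simp
  | succ m ih =>
    rw [pow_succ']
    show AA n p ((AA n p ^ m) (fun H => mn H ^ 2)) H ≤ (AA n p ((AA n p ^ m) mn) H) ^ 2 + _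
    set g := (AA n p ^ m) mn with hg
    rw [AA_apply n hn, AA_apply n hn]
    have hw := wt_nonneg n p hp0 hp1
    have hs := wt_sum n hn p
    have hlow : ∀ c, g H ≤ g (H + viol c) := by
      intro c
      have e1 : g (H + viol c) = (AA n p ^ m) (fun H => mn (H + viol c)) H := by
        rw [hg, AA_pow n hn, AA_pow n hn]
        apply sum_congr rfl
        intro f _
        rw [add_right_comm]
      rw [e1, hg]
      apply AA_pow_mono n hn p hp0 hp1
      intro H'
      exact le_mn_add H' _ (viol_nonneg c)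
    have hup : ∀ c, g (H + viol c) ≤ g H + 1 := by
      intro c
      have e1 : g (H + viol c) = (AA n p ^ m) (fun H => mn (H + viol c)) H := by
        rw [hg, AA_pow n hn, AA_pow n hn]
        apply sum_congr rfl
        intro f _
        rw [add_right_comm]
      have e2 : g H + 1 = (AA n p ^ m) (fun H => mn H + 1) H := by
        rw [hg]; unfold AA; rw [pow_add_const]
      rw [e1, e2]
      apply AA_pow_mono n hn p hp0 hp1
      intro H'
      exact mn_add_le H' _ (viol_le_one c)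
    calc ∑ c, wt n p c * (AA n p ^ m) (fun H => mn H ^ 2) (H + viol c)
        ≤ ∑ c, wt n p c * (g (H + viol c) ^ 2 + m) :=
          sum_le_sum (fun c _ => mul_le_mul_of_nonneg_left (ih _) (hw c))
      _ = ∑ c, wt n p c * g (H + viol c) ^ 2 + m := by
          simp only [mul_add, sum_add_distrib, ← sum_mul, hs, one_mul]
      _ ≤ (∑ c, wt n p c * g (H + viol c)) ^ 2 + 1 + m := by
          have h1 : ∑ c, wt n p c * g (H + viol c) ^ 2
              ≤ (∑ c, wt n p c * g (H + viol c)) ^ 2 + 1 := by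
            set M := ∑ c, wt n p c * g (H + viol c) with hM
            have h2 : ∑ c, wt n p c * (g (H + viol c) - g H) ^ 2 ≤ 1 := by
              calc ∑ c, wt n p c * (g (H + viol c) - g H) ^ 2 ≤ ∑ c, wt n p c * 1 := by
                    apply sum_le_sum
                    intro c _
                    apply mul_le_mul_of_nonneg_left _ (hw c)
                    have := hlow c
                    have := hup c
                    nlinarith
                _ = 1 := by rw [← sum_mul, hs, one_mul]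
            have h3 : ∑ c, wt n p c * (g (H + viol c) - g H) ^ 2
                = ∑ c, wt n p c * g (H + viol c) ^ 2 - 2 * g H * M + g H ^ 2 := by
              have e : ∀ c, wt n p c * (g (H + viol c) - g H) ^ 2
                  = wt n p c * g (H + viol c) ^ 2 - 2 * g H * (wt n p c * g (H + viol c))
                    + g H ^ 2 * wt n p c := fun c => by ring
              simp only [e, sum_add_distrib, sum_sub_distrib, ← mul_sum, hs, ← hM]
              ring
            rw [h3] at h2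
            nlinarith [sq_nonneg (M - g H)]
          linarith
      _ = _ := by push_cast; ring

open Classical in
/-- Chebyshev bound for the probability of satisfiability. -/
theorem probSat_le (n : ℕ) (hn : 3 ≤ n) (p : ℝ) (hp0 : 0 ≤ p) (hp1 : p ≤ 1) (m : ℕ) (e : ℝ)
    (he : 0 < e) (hE : e ≤ (AA n p ^ m) mn 0) : probSat n m p ≤ m / e ^ 2 := by
  rw [probSat_eq n hn]
  set E := (AA n p ^ m) mn 0 with hEdef
  have hE0 : 0 < E := lt_of_lt_of_le he hE
  have h1 : (AA n p ^ m) (fun H => E ^ 2 * (if ∃ A, H A = 0 then 1 else 0)) 0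
      ≤ (AA n p ^ m) (fun H => (mn H - E) ^ 2) 0 := by
    apply AA_pow_mono n hn p hp0 hp1
    intro H
    split_ifs with h
    · obtain ⟨A, hA⟩ := h
      have h2 := mn_le H A
      rw [hA] at h2
      nlinarith
    · rw [mul_zero]; exact sq_nonneg _
  have h2 : (AA n p ^ m) (fun H => E ^ 2 * (if ∃ A, H A = 0 then 1 else 0)) 0
      = E ^ 2 * (AA n p ^ m) (fun H => if ∃ A, H A = 0 then 1 else 0) 0 := by
    rw [AA_pow n hn, AA_pow n hn, mul_sum]
    apply sum_congr rfl
    intro f _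
    ring
  have h3 : (AA n p ^ m) (fun H => (mn H - E) ^ 2) 0
      = (AA n p ^ m) (fun H => mn H ^ 2) 0 - E ^ 2 := by
    have hs1 : ∑ f : Fin m → Clause n, ∏ i, wt n p (f i) = 1 := by
      have := AA_pow n hn p (fun _ => 1) m 0
      have hc : (AA n p ^ m) (fun _ => (1 : ℝ)) 0 = 1 := by
        have h5 := pow_add_const (wt n p) (viol (n := n)) (fun _ => (0 : ℝ)) 1 m 0
        have h6 : (jump (wt n p) (viol (n := n)) ^ m) (fun _ => (0 : ℝ)) 0 = 0 := by
          have : (fun _ => (0 : ℝ)) = (0 : ((Fin n → Bool) → ℝ) → ℝ) := rfl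
          rw [this, map_zero]; rfl
        simp only [zero_add] at h5
        rw [h6] at h5
        unfold AA
        linarith
      rw [hc] at this
      simpa using this.symm
    have hEs : ∑ f : Fin m → Clause n, (∏ i, wt n p (f i)) * mn (0 + ∑ i, viol (f i)) = E := by
      rw [hEdef, AA_pow n hn]
    rw [AA_pow n hn, AA_pow n hn]
    have e : ∀ f : Fin m → Clause n, (∏ i, wt n p (f i)) * (mn (0 + ∑ i, viol (f i)) - E) ^ 2
        = (∏ i, wt n p (f i)) * mn (0 + ∑ i, viol (f i)) ^ 2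
          - 2 * E * ((∏ i, wt n p (f i)) * mn (0 + ∑ i, viol (f i)))
          + E ^ 2 * (∏ i, wt n p (f i)) := fun f => by ring
    simp only [e, sum_add_distrib, sum_sub_distrib, ← mul_sum, hs1, hEs]
    ring
  have h4 := var_le n hn p hp0 hp1 m 0
  rw [← hEdef] at h4
  rw [h2, h3] at h1
  have h5 : E ^ 2 * (AA n p ^ m) (fun H => if ∃ A, H A = 0 then 1 else 0) 0 ≤ m := by linarith
  have h6 : (AA n p ^ m) (fun H => if ∃ A, H A = 0 then (1 : ℝ) else 0) 0 ≤ m / E ^ 2 := by
    rw [le_div_iff₀ (by positivity)]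
    linarith
  refine h6.trans ?_
  gcongr

end Pool.Agent.H986R2.TwoP
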