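import Pool.Agent.H986R2.TwoP.Crit

open Finset Filter Topology

namespace Pool.Agent.H986R2.TwoP

/-- The pure 3-SAT case. -/
theorem main_one : ∃ r : ℝ, 0 < r ∧ r * (1 - 1) < 1 ∧
      Tendsto (fun n : ℕ => probSat n ⌊r * n⌋₊ 1) atTop (𝓝 0) := by
  refine ⟨25 / 3, by norm_num, by norm_num, ?_⟩
  apply criterion 1 (25 / 3) zero_le_one le_rfl (by norm_num) (fun _ : Unit => 1 / 5)
    (fun _ : Unit => 1) (fun _ => by norm_num) (fun _ => zero_le_one) (fun _ => le_rfl)
  · simp only [Fintype.sum_sum_type, om, univ_unique, sum_const, card_singleton, one_smul,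
      Fintype.sum_prod_type]
    norm_num
  · unfold Psi
    simp only [Fintype.sum_sum_type, om, uu, univ_unique, sum_const, card_singleton, one_smul,
      Fintype.sum_prod_type, sum_add_distrib]
    norm_num
    rw [Real.exp_neg]
    have h := Real.exp_one_lt_d9
    have h2 := Real.exp_pos 1
    have h3 : (0.36 : ℝ) < (Real.exp 1)⁻¹ := by
      rw [lt_inv_comm₀ (by norm_num) h2]
      norm_num at h ⊢
      linarith
    norm_num at h3
    linarith

end Pool.Agent.H986R2.TwoP
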