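import Pool.Agent.H986R2.TwoP.Min
import Pool.Agent.H986R2.TwoP.Kernel
import Pool.Agent.H986R2.TwoP.Ops

open Finset

namespace Pool.Agent.H986R2.TwoP

theorem sum_pair {α : Type*} [Fintype α] (f : α → α → ℝ) :
    ∑ a, ∑ b, f a b = ∑ c : α × α, f c.1 c.2 := by
  rw [Fintype.sum_prod_type]

theorem sum_pair' {α β : Type*} [Fintype α] [Fintype β] (f : α → β → ℝ) :
    ∑ a, ∑ b, f a b = ∑ c : α × β, f c.1 c.2 := by
  rw [Fintype.sum_prod_type]

theorem sum_triple2 {α : Type*} [Fintype α] (f : α → α → ℝ) :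
    ∑ a, ∑ b, f a b = ∑ c : α × α, f c.1 c.2 := by
  rw [Fintype.sum_prod_type]

theorem sum_triple {α : Type*} [Fintype α] (f : α → α → α → ℝ) :
    ∑ a, ∑ b, ∑ c, f a b c = ∑ c : α × α × α, f c.1 c.2.1 c.2.2 := by
  rw [Fintype.sum_prod_type]
  apply sum_congr rfl
  intro a _
  rw [Fintype.sum_prod_type]

theorem sum_diag2 {α : Type*} [Fintype α] [DecidableEq α] :
    ∑ c : α × α, (if c.1 = c.2 then (1 : ℝ) else 0) = Fintype.card α := by
  rw [← sum_pair (fun a b : α => if a = b then (1 : ℝ) else 0)]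
  simp

theorem sum_diag3 {α : Type*} [Fintype α] [DecidableEq α] :
    ∑ c : α × α × α, ((if c.1 = c.2.1 then (1 : ℝ) else 0) +
          (if c.1 = c.2.2 then (1 : ℝ) else 0) + (if c.2.1 = c.2.2 then (1 : ℝ) else 0))
      = 3 * (Fintype.card α : ℝ) ^ 2 := by
  rw [← sum_triple (fun a b c : α => (if a = b then (1 : ℝ) else 0) +
          (if a = c then (1 : ℝ) else 0) + (if b = c then (1 : ℝ) else 0))]
  simp only [sum_add_distrib, sum_ite_eq, mem_univ, if_true, sum_const, card_univ, nsmul_eq_mul,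
    mul_one]
  simp only [← mul_sum, sum_ite_eq, mem_univ, if_true, mul_one, sum_const, card_univ, nsmul_eq_mul]
  ring

theorem card_lit (n : ℕ) : Fintype.card (Lit n) = 2 * n := by
  rw [Fintype.card_prod, Fintype.card_fin, Fintype.card_bool, mul_comm]

theorem card_two_le (n : ℕ) : ((two n).card : ℝ) ≤ (2 * n) ^ 2 := by
  have h : (two n).card ≤ Fintype.card (Lit n × Lit n) := card_le_univ _
  rw [Fintype.card_prod (Lit n) (Lit n), card_lit] at h
  have h' : ((two n).card : ℝ) ≤ ((2 * n * (2 * n) : ℕ) : ℝ) := by exact_mod_cast h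
  refine h'.trans (le_of_eq ?_)
  push_cast; ring

theorem card_three_le (n : ℕ) : ((three n).card : ℝ) ≤ (2 * n) ^ 3 := by
  have h : (three n).card ≤ Fintype.card (Lit n × Lit n × Lit n) := card_le_univ _
  rw [Fintype.card_prod (Lit n) (Lit n × Lit n), Fintype.card_prod (Lit n) (Lit n), card_lit] at h
  have h' : ((three n).card : ℝ) ≤ ((2 * n * (2 * n * (2 * n)) : ℕ) : ℝ) := by exact_mod_cast h
  refine h'.trans (le_of_eq ?_)
  push_cast; ring

theorem two_pos (n : ℕ) (hn : 3 ≤ n) : 0 < (two n).card := by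
  apply card_pos.2
  refine ⟨((⟨0, by omega⟩, true), (⟨1, by omega⟩, true)), ?_⟩
  unfold two
  rw [mem_filter]
  refine ⟨mem_univ _, ?_⟩
  intro h
  rw [Fin.mk.injEq] at h
  omega

theorem three_pos (n : ℕ) (hn : 3 ≤ n) : 0 < (three n).card := by
  apply card_pos.2
  refine ⟨((⟨0, by omega⟩, true), (⟨1, by omega⟩, true), (⟨2, by omega⟩, true)), ?_⟩
  unfold three
  rw [mem_filter]
  refine ⟨mem_univ _, ?_, ?_, ?_⟩ <;>
  · intro h
    rw [Fin.mk.injEq] at h
    omega

/-- Sum over 2-clauses. -/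
theorem sum_two_ge {n : ℕ} (H : (Fin n → Bool) → ℝ) :
    (∑ a : Lit n, ∑ b : Lit n, min (xx H a) (xx H b)) - 2 * n
      ≤ ∑ c ∈ two n, min (xx H c.1) (xx H c.2) := by
  have h1 : ∑ a : Lit n, ∑ b : Lit n, min (xx H a) (xx H b)
      = ∑ c : Lit n × Lit n, min (xx H c.1) (xx H c.2) :=
    sum_pair (fun a b => min (xx H a) (xx H b))
  have h2 : ∑ c : Lit n × Lit n, min (xx H c.1) (xx H c.2)
      = ∑ c ∈ two n, min (xx H c.1) (xx H c.2)
        + ∑ c ∈ univ.filter (fun c : Lit n × Lit n => ¬ c.1.1 ≠ c.2.1),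
          min (xx H c.1) (xx H c.2) := by
    unfold two
    rw [sum_filter_add_sum_filter_not]
  have h3 : ∑ c ∈ univ.filter (fun c : Lit n × Lit n => ¬ c.1.1 ≠ c.2.1),
          min (xx H c.1) (xx H c.2) ≤ ∑ c : Lit n × Lit n, (if c.1 = c.2 then (1 : ℝ) else 0) := by
    calc ∑ c ∈ univ.filter (fun c : Lit n × Lit n => ¬ c.1.1 ≠ c.2.1),
          min (xx H c.1) (xx H c.2)
        ≤ ∑ c ∈ univ.filter (fun c : Lit n × Lit n => ¬ c.1.1 ≠ c.2.1),
          (if c.1 = c.2 then (1 : ℝ) else 0) := by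
          apply sum_le_sum
          intro c hc
          rw [mem_filter, not_not] at hc
          split_ifs with h
          · exact (min_le_left _ _).trans (xx_le_one H _)
          · rw [xx_min_zero H _ _ hc.2 h]
      _ ≤ _ := by
          apply sum_le_sum_of_subset_of_nonneg (filter_subset _ _)
          intro c _ _
          split_ifs <;> norm_num
  have h4 := sum_diag2 (α := Lit n)
  have hc : (Fintype.card (Lit n) : ℝ) = 2 * n := by rw [card_lit]; push_cast; ring
  rw [hc] at h4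
  rw [h1, h2]
  linarith

/-- Sum over 3-clauses. -/
theorem sum_three_ge {n : ℕ} (H : (Fin n → Bool) → ℝ) :
    (∑ a : Lit n, ∑ b : Lit n, ∑ c : Lit n, min (xx H a) (min (xx H b) (xx H c)))
        - 3 * (2 * n) ^ 2
      ≤ ∑ c ∈ three n, min (xx H c.1) (min (xx H c.2.1) (xx H c.2.2)) := by
  have h1 : ∑ a : Lit n, ∑ b : Lit n, ∑ c : Lit n, min (xx H a) (min (xx H b) (xx H c))
      = ∑ c : Lit n × Lit n × Lit n, min (xx H c.1) (min (xx H c.2.1) (xx H c.2.2)) :=
    sum_triple (fun a b c => min (xx H a) (min (xx H b) (xx H c)))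
  have h2 : ∑ c : Lit n × Lit n × Lit n, min (xx H c.1) (min (xx H c.2.1) (xx H c.2.2))
      = ∑ c ∈ three n, min (xx H c.1) (min (xx H c.2.1) (xx H c.2.2))
        + ∑ c ∈ univ.filter (fun c : Lit n × Lit n × Lit n =>
            ¬ (c.1.1 ≠ c.2.1.1 ∧ c.1.1 ≠ c.2.2.1 ∧ c.2.1.1 ≠ c.2.2.1)),
          min (xx H c.1) (min (xx H c.2.1) (xx H c.2.2)) := by
    unfold three
    rw [sum_filter_add_sum_filter_not]
  have h3 : ∑ c ∈ univ.filter (fun c : Lit n × Lit n × Lit n =>
            ¬ (c.1.1 ≠ c.2.1.1 ∧ c.1.1 ≠ c.2.2.1 ∧ c.2.1.1 ≠ c.2.2.1)),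
          min (xx H c.1) (min (xx H c.2.1) (xx H c.2.2))
        ≤ ∑ c : Lit n × Lit n × Lit n, ((if c.1 = c.2.1 then (1 : ℝ) else 0) +
          (if c.1 = c.2.2 then (1 : ℝ) else 0) + (if c.2.1 = c.2.2 then (1 : ℝ) else 0)) := by
    calc ∑ c ∈ univ.filter (fun c : Lit n × Lit n × Lit n =>
            ¬ (c.1.1 ≠ c.2.1.1 ∧ c.1.1 ≠ c.2.2.1 ∧ c.2.1.1 ≠ c.2.2.1)),
          min (xx H c.1) (min (xx H c.2.1) (xx H c.2.2))
        ≤ ∑ c ∈ univ.filter (fun c : Lit n × Lit n × Lit n =>
            ¬ (c.1.1 ≠ c.2.1.1 ∧ c.1.1 ≠ c.2.2.1 ∧ c.2.1.1 ≠ c.2.2.1)),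
          ((if c.1 = c.2.1 then (1 : ℝ) else 0) +
          (if c.1 = c.2.2 then (1 : ℝ) else 0) + (if c.2.1 = c.2.2 then (1 : ℝ) else 0)) := by
          apply sum_le_sum
          intro c hc
          rw [mem_filter] at hc
          have hc2 := hc.2
          have n1 : (0 : ℝ) ≤ (if c.1 = c.2.1 then (1 : ℝ) else 0) := by split_ifs <;> norm_num
          have n2 : (0 : ℝ) ≤ (if c.1 = c.2.2 then (1 : ℝ) else 0) := by split_ifs <;> norm_num
          have n3 : (0 : ℝ) ≤ (if c.2.1 = c.2.2 then (1 : ℝ) else 0) := by split_ifs <;> norm_num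
          have m1 : min (xx H c.1) (min (xx H c.2.1) (xx H c.2.2)) ≤ 1 :=
            (min_le_left _ _).trans (xx_le_one H _)
          by_cases e1 : c.1 = c.2.1
          · rw [if_pos e1]; linarith
          by_cases e2 : c.1 = c.2.2
          · rw [if_pos e2] at n2 ⊢; linarith
          by_cases e3 : c.2.1 = c.2.2
          · rw [if_pos e3] at n3 ⊢; linarith
          have hle : min (xx H c.1) (min (xx H c.2.1) (xx H c.2.2)) ≤ 0 := by
            by_cases g1 : c.1.1 = c.2.1.1
            · rw [← min_assoc, xx_min_zero H _ _ g1 e1]; exact min_le_left _ _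
            by_cases g2 : c.1.1 = c.2.2.1
            · rw [min_left_comm, xx_min_zero H _ _ g2 e2]; exact min_le_right _ _
            by_cases g3 : c.2.1.1 = c.2.2.1
            · rw [xx_min_zero H _ _ g3 e3]; exact min_le_right _ _
            exact absurd ⟨g1, g2, g3⟩ hc2
          linarith
      _ ≤ _ := by
          apply sum_le_sum_of_subset_of_nonneg (filter_subset _ _)
          intro c _ _
          split_ifs <;> norm_num
  have h4 := sum_diag3 (α := Lit n)
  have hc : (Fintype.card (Lit n) : ℝ) = 2 * n := by rw [card_lit]; push_cast; ring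
  rw [hc] at h4
  rw [h1, h2]
  linarith

/-- weights of the site terms -/
noncomputable def wS {J : Type*} (n : ℕ) (p : ℝ) (b : J → ℝ) : Lit n × (J ⊕ J × J) → ℝ
  | (_, Sum.inl j) => 2 * (1 - p) / 3 * (b j / (2 * n))
  | (_, Sum.inr j) => p * (b j.1 * b j.2 / (2 * n))

/-- the site terms -/
noncomputable def sS {J : Type*} (n : ℕ) (v : J → ℝ) :
    Lit n × (J ⊕ J × J) → ((Fin n → Bool) → ℝ)
  | (l, Sum.inl j) => pen l (v j)
  | (l, Sum.inr j) => pen l (min (v j.1) (v j.2))

/-- One step of the interpolation. -/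
theorem step_ineq {J : Type*} [Fintype J] {n : ℕ} (hn : 3 ≤ n) (p : ℝ) (hp0 : 0 ≤ p) (hp1 : p ≤ 1)
    (b v : J → ℝ) (hb : ∀ j, 0 ≤ b j) (hv0 : ∀ j, 0 ≤ v j) (hv1 : ∀ j, v j ≤ 1)
    (H : (Fin n → Bool) → ℝ) :
    jump (wS n p b) (sS n v) mn H ≤ jump (fun c => 1 / 3 * wt n p c) viol mn H
      + 1 / 3 * ((1 - p) * (∑ i, ∑ j, b i * b j * min (v i) (v j) + 1 / (2 * n))
        + p * (2 * ∑ i, ∑ j, ∑ k, b i * b j * b k * min (v i) (min (v j) (v k)) + 3 / (2 * n))) := by
  have hn0 : (0 : ℝ) < n := by exact_mod_cast (by omega : 0 < n)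
  have hNpos : (0 : ℝ) < 2 * n := by positivity
  rw [jump_apply, jump_apply]
  set x := xx H with hx
  set M2 := ∑ i, ∑ j, b i * b j * min (v i) (v j) with hM2
  set M3 := ∑ i, ∑ j, ∑ k, b i * b j * b k * min (v i) (min (v j) (v k)) with hM3
  set S2 := ∑ a : Lit n, ∑ b : Lit n, min (x a) (x b) with hS2
  set S3 := ∑ a : Lit n, ∑ b : Lit n, ∑ c : Lit n, min (x a) (min (x b) (x c)) with hS3
  set Y2 := ∑ l : Lit n, ∑ j, (1 / (2 * n : ℝ)) * b j * min (x l) (v j) with hY2
  set Y3 := ∑ l : Lit n, ∑ j, ∑ k, (1 / (2 * n : ℝ)) * b j * b k * min (x l) (min (v j) (v k))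
    with hY3
  -- kernels
  have k2 := ker2 (fun _ : Lit n => (1 / (2 * n : ℝ))) x b v (fun l => xx_nonneg H l)
    (fun l => xx_le_one H l) hv0 hv1
  have k3 := ker3 (fun _ : Lit n => (1 / (2 * n : ℝ))) x b v (fun _ => by positivity) hb
    (fun l => xx_nonneg H l) (fun l => xx_le_one H l) hv0 hv1
  have e2 : ∑ i : Lit n, ∑ j : Lit n, (1 / (2 * n : ℝ)) * (1 / (2 * n : ℝ)) * min (x i) (x j)
      = S2 / (2 * n) ^ 2 := by
    rw [hS2, sum_div]
    refine sum_congr rfl fun i _ => ?_
    rw [sum_div]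
    refine sum_congr rfl fun j _ => ?_
    field_simp
  have e3 : ∑ i : Lit n, ∑ j : Lit n, ∑ k : Lit n, (1 / (2 * n : ℝ)) * (1 / (2 * n : ℝ)) *
      (1 / (2 * n : ℝ)) * min (x i) (min (x j) (x k)) = S3 / (2 * n) ^ 3 := by
    rw [hS3, sum_div]
    refine sum_congr rfl fun i _ => ?_
    rw [sum_div]
    refine sum_congr rfl fun j _ => ?_
    rw [sum_div]
    refine sum_congr rfl fun k _ => ?_
    field_simp
  rw [e2] at k2
  rw [e3] at k3
  -- site terms
  have hsite : ∑ a : Lit n × (J ⊕ J × J), wS n p b a * (mn (H + sS n v a) - mn H)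
      ≤ 2 * (1 - p) / 3 * Y2 + p * Y3 := by
    have h1 : ∑ a : Lit n × (J ⊕ J × J), wS n p b a * (mn (H + sS n v a) - mn H)
        = ∑ l : Lit n, ∑ t : J ⊕ J × J, wS n p b (l, t) * (mn (H + sS n v (l, t)) - mn H) :=
      (sum_pair' (fun l t => wS n p b (l, t) * (mn (H + sS n v (l, t)) - mn H))).symm
    rw [h1]
    have h2 : ∀ l : Lit n, ∑ t : J ⊕ J × J, wS n p b (l, t) * (mn (H + sS n v (l, t)) - mn H)
        ≤ 2 * (1 - p) / 3 * (∑ j, (1 / (2 * n : ℝ)) * b j * min (x l) (v j))
          + p * ∑ j, ∑ k, (1 / (2 * n : ℝ)) * b j * b k * min (x l) (min (v j) (v k)) := by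
      intro l
      rw [Fintype.sum_sum_type]
      apply add_le_add
      · rw [mul_sum]
        apply sum_le_sum
        intro j _
        have h3 := mn_pen_le H l (v j) (hv0 j) (hv1 j)
        have h4 : (0 : ℝ) ≤ 2 * (1 - p) / 3 * (b j / (2 * n)) := by
          have := hb j
          have : 0 ≤ 1 - p := by linarith
          positivity
        show 2 * (1 - p) / 3 * (b j / (2 * n)) * (mn (H + pen l (v j)) - mn H) ≤ _
        calc 2 * (1 - p) / 3 * (b j / (2 * n)) * (mn (H + pen l (v j)) - mn H)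
            ≤ 2 * (1 - p) / 3 * (b j / (2 * n)) * min (v j) (xx H l) := by
              apply mul_le_mul_of_nonneg_left _ h4
              linarith
          _ = _ := by rw [min_comm]; ring
      · rw [sum_triple2 (fun j k => (1 / (2 * n : ℝ)) * b j * b k * min (x l) (min (v j) (v k))),
          mul_sum]
        apply sum_le_sum
        rintro ⟨j, k⟩ _
        have h3 := mn_pen_le H l (min (v j) (v k)) (le_min (hv0 j) (hv0 k))
          ((min_le_left _ _).trans (hv1 j))
        have h4 : (0 : ℝ) ≤ p * (b j * b k / (2 * n)) := by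
          have := hb j
          have := hb k
          positivity
        show p * (b j * b k / (2 * n)) * (mn (H + pen l (min (v j) (v k))) - mn H) ≤ _
        calc p * (b j * b k / (2 * n)) * (mn (H + pen l (min (v j) (v k))) - mn H)
            ≤ p * (b j * b k / (2 * n)) * min (min (v j) (v k)) (xx H l) := by
              apply mul_le_mul_of_nonneg_left _ h4
              linarith
          _ = _ := by rw [min_comm]; ring
    refine (sum_le_sum (fun l _ => h2 l)).trans (le_of_eq ?_)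
    rw [sum_add_distrib, ← mul_sum, ← mul_sum]
  -- clause terms
  have hclause : 1 / 3 * ((1 - p) * ((S2 - 2 * n) / (2 * n) ^ 2)
        + p * ((S3 - 3 * (2 * n) ^ 2) / (2 * n) ^ 3))
      ≤ ∑ c : Clause n, 1 / 3 * wt n p c * (mn (H + viol c) - mn H) := by
    rw [Fintype.sum_sum_type, mul_add]
    apply add_le_add
    · have h1 : ∑ c : Lit n × Lit n, 1 / 3 * wt n p (Sum.inl c) * (mn (H + viol (Sum.inl c)) - mn H)
          = ∑ c ∈ two n, 1 / 3 * ((1 - p) / (two n).card) * (mn (H + viol (Sum.inl c)) - mn H) := by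
        rw [← sum_filter_add_sum_filter_not univ (fun c => c ∈ two n)]
        have z : ∑ c ∈ univ.filter (fun c => ¬ c ∈ two n),
            1 / 3 * wt n p (Sum.inl c) * (mn (H + viol (Sum.inl c)) - mn H) = 0 := by
          apply sum_eq_zero
          intro c hc
          rw [mem_filter] at hc
          simp only [wt]
          rw [if_neg hc.2]; ring
        rw [z, add_zero]
        have f : univ.filter (fun c => c ∈ two n) = two n := by ext c; simp
        rw [f]
        apply sum_congr rfl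
        intro c hc
        simp only [wt]
        rw [if_pos hc]
      rw [h1]
      have h2 : ∑ c ∈ two n, 1 / 3 * ((1 - p) / (two n).card) * min (x c.1) (x c.2)
          ≤ ∑ c ∈ two n, 1 / 3 * ((1 - p) / (two n).card) *
            (mn (H + viol (Sum.inl c)) - mn H) := by
        apply sum_le_sum
        intro c _
        have h3 := mn_viol_two H c.1 c.2
        have h4 : (0 : ℝ) ≤ 1 / 3 * ((1 - p) / (two n).card) := by
          have : 0 ≤ 1 - p := by linarith
          positivity
        apply mul_le_mul_of_nonneg_left _ h4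
        have e : ((c.1, c.2) : Lit n × Lit n) = c := rfl
        rw [e] at h3
        linarith
      refine le_trans ?_ h2
      rw [← mul_sum]
      have h5 := sum_two_ge H
      have h6 := card_two_le n
      have h7 : (0 : ℝ) < (two n).card := by exact_mod_cast two_pos n hn
      have h8 : 0 ≤ ∑ c ∈ two n, min (x c.1) (x c.2) :=
        sum_nonneg (fun c _ => le_min (xx_nonneg H _) (xx_nonneg H _))
      have h9 : (S2 - 2 * n) / (2 * n) ^ 2 ≤ (∑ c ∈ two n, min (x c.1) (x c.2)) / (two n).card := by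
        calc (S2 - 2 * n) / (2 * n) ^ 2 ≤ (∑ c ∈ two n, min (x c.1) (x c.2)) / (2 * n) ^ 2 := by
              gcongr
          _ ≤ _ := by gcongr
      calc 1 / 3 * ((1 - p) * ((S2 - 2 * n) / (2 * n) ^ 2))
          ≤ 1 / 3 * ((1 - p) * ((∑ c ∈ two n, min (x c.1) (x c.2)) / (two n).card)) := by
            have : 0 ≤ 1 - p := by linarith
            gcongr
        _ = _ := by ring
    · have h1 : ∑ c : Lit n × Lit n × Lit n,
            1 / 3 * wt n p (Sum.inr c) * (mn (H + viol (Sum.inr c)) - mn H)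
          = ∑ c ∈ three n, 1 / 3 * (p / (three n).card) * (mn (H + viol (Sum.inr c)) - mn H) := by
        rw [← sum_filter_add_sum_filter_not univ (fun c => c ∈ three n)]
        have z : ∑ c ∈ univ.filter (fun c => ¬ c ∈ three n),
            1 / 3 * wt n p (Sum.inr c) * (mn (H + viol (Sum.inr c)) - mn H) = 0 := by
          apply sum_eq_zero
          intro c hc
          rw [mem_filter] at hc
          simp only [wt]
          rw [if_neg hc.2]; ring
        rw [z, add_zero]
        have f : univ.filter (fun c => c ∈ three n) = three n := by ext c; simp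
        rw [f]
        apply sum_congr rfl
        intro c hc
        simp only [wt]
        rw [if_pos hc]
      rw [h1]
      have h2 : ∑ c ∈ three n, 1 / 3 * (p / (three n).card) *
            min (x c.1) (min (x c.2.1) (x c.2.2))
          ≤ ∑ c ∈ three n, 1 / 3 * (p / (three n).card) *
            (mn (H + viol (Sum.inr c)) - mn H) := by
        apply sum_le_sum
        intro c _
        have h3 := mn_viol_three H c.1 c.2.1 c.2.2
        have h4 : (0 : ℝ) ≤ 1 / 3 * (p / (three n).card) := by positivity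
        apply mul_le_mul_of_nonneg_left _ h4
        have e : ((c.1, c.2.1, c.2.2) : Lit n × Lit n × Lit n) = c := rfl
        rw [e] at h3
        linarith
      refine le_trans ?_ h2
      rw [← mul_sum]
      have h5 := sum_three_ge H
      have h6 := card_three_le n
      have h7 : (0 : ℝ) < (three n).card := by exact_mod_cast three_pos n hn
      have h8 : 0 ≤ ∑ c ∈ three n, min (x c.1) (min (x c.2.1) (x c.2.2)) :=
        sum_nonneg (fun c _ => le_min (xx_nonneg H _) (le_min (xx_nonneg H _) (xx_nonneg H _)))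
      have h9 : (S3 - 3 * (2 * n) ^ 2) / (2 * n) ^ 3
          ≤ (∑ c ∈ three n, min (x c.1) (min (x c.2.1) (x c.2.2))) / (three n).card := by
        calc (S3 - 3 * (2 * n) ^ 2) / (2 * n) ^ 3
            ≤ (∑ c ∈ three n, min (x c.1) (min (x c.2.1) (x c.2.2))) / (2 * n) ^ 3 := by
              gcongr
          _ ≤ _ := by gcongr
      calc 1 / 3 * (p * ((S3 - 3 * (2 * n) ^ 2) / (2 * n) ^ 3))
          ≤ 1 / 3 * (p * ((∑ c ∈ three n, min (x c.1) (min (x c.2.1) (x c.2.2))) /
              (three n).card)) := by gcongr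
        _ = _ := by ring
  have f2 : (S2 - 2 * n) / (2 * n) ^ 2 = S2 / (2 * n) ^ 2 - 1 / (2 * n) := by field_simp
  have f3 : (S3 - 3 * (2 * n) ^ 2) / (2 * n) ^ 3 = S3 / (2 * n) ^ 3 - 3 / (2 * n) := by field_simp
  rw [f2, f3] at hclause
  have g2 : (1 - p) * (2 * Y2) ≤ (1 - p) * (S2 / (2 * n) ^ 2 + M2) :=
    mul_le_mul_of_nonneg_left k2 (by linarith)
  have g3 : p * (3 * Y3) ≤ p * (S3 / (2 * n) ^ 3 + 2 * M3) :=
    mul_le_mul_of_nonneg_left k3 hp0
  linarith

end Pool.Agent.H986R2.TwoP
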