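import Pool.Agent.H986R2.TwoP.Func

open Finset Filter Topology

namespace Pool.Agent.H986R2.TwoP

/-- sum of the two smaller minus the largest, truncated at zero -/
noncomputable def dd (x y z : ℝ) : ℝ := max 0 (x + y + z - 2 * max x (max y z))

theorem dd_id (x y z : ℝ) (hx : 0 ≤ x) (hy : 0 ≤ y) (hz : 0 ≤ z) :
    min x (y + z) + min y (x + z) + min z (x + y)
      - 2 * (min x y + min x z + min y z) = - 2 * min x (min y z) - dd x y z := by
  unfold dd
  rcases le_total x y with h1 | h1 <;> rcases le_total y z with h2 | h2 <;>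
    rcases le_total x z with h3 | h3 <;>
    simp only [min_def, max_def] <;> split_ifs <;> linarith

section

variable {J : Type*} [Fintype J]

/-- triple sums -/
noncomputable def SS (P v : J → ℝ) (g : ℝ → ℝ → ℝ → ℝ) : ℝ :=
  ∑ i, ∑ j, ∑ k, P i * P j * P k * g (v i) (v j) (v k)

theorem SS_swap (P v : J → ℝ) (g : ℝ → ℝ → ℝ → ℝ) :
    SS P v (fun x y z => g y x z) = SS P v g := by
  unfold SS
  rw [sum_comm]
  refine sum_congr rfl fun i _ => sum_congr rfl fun j _ => sum_congr rfl fun k _ => ?_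
  ring

theorem SS_swap' (P v : J → ℝ) (g : ℝ → ℝ → ℝ → ℝ) :
    SS P v (fun x y z => g x z y) = SS P v g := by
  unfold SS
  refine sum_congr rfl fun i _ => ?_
  rw [sum_comm]
  refine sum_congr rfl fun j _ => sum_congr rfl fun k _ => ?_
  ring

theorem SS_add (P v : J → ℝ) (f g : ℝ → ℝ → ℝ → ℝ) :
    SS P v (fun x y z => f x y z + g x y z) = SS P v f + SS P v g := by
  unfold SS
  simp only [mul_add, sum_add_distrib]

theorem SS_mul (P v : J → ℝ) (c : ℝ) (g : ℝ → ℝ → ℝ → ℝ) :
    SS P v (fun x y z => c * g x y z) = c * SS P v g := by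
  unfold SS
  rw [mul_sum]
  refine sum_congr rfl fun i _ => ?_
  rw [mul_sum]
  refine sum_congr rfl fun j _ => ?_
  rw [mul_sum]
  refine sum_congr rfl fun k _ => ?_
  ring

theorem SS_scale (P v : J → ℝ) (c : ℝ) (g : ℝ → ℝ → ℝ → ℝ) :
    SS (fun j => P j / c) v g = SS P v g / c ^ 3 := by
  unfold SS
  rw [sum_div]
  refine sum_congr rfl fun i _ => ?_
  rw [sum_div]
  refine sum_congr rfl fun j _ => ?_
  rw [sum_div]
  refine sum_congr rfl fun k _ => ?_
  ring

/-- The symmetrised kernel. -/
noncomputable def GG (R x y z : ℝ) : ℝ := (3 * R - 2) * min x (min y z) - dd x y z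

theorem SS_GG (R : ℝ) (P v : J → ℝ) (hv : ∀ j, 0 ≤ v j) :
    SS P v (GG R) = 3 * R * SS P v (fun x y z => min x (min y z))
      + 3 * SS P v (fun x y z => min x (y + z)) - 6 * SS P v (fun x y _ => min x y) := by
  have e1 : SS P v (GG R) = SS P v (fun x y z => (3 * R) * min x (min y z)
      + ((min x (y + z) + (min y (x + z) + min z (x + y)))
        + (-2) * (min x y + (min x z + min y z)))) := by
    unfold SS
    refine sum_congr rfl fun i _ => sum_congr rfl fun j _ => sum_congr rfl fun k _ => ?_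
    congr 1
    have := dd_id (v i) (v j) (v k) (hv i) (hv j) (hv k)
    unfold GG
    linarith
  have s1 : SS P v (fun x y z => min y (x + z)) = SS P v (fun x y z => min x (y + z)) :=
    SS_swap P v (fun x y z => min x (y + z))
  have s2 : SS P v (fun x y z => min z (x + y)) = SS P v (fun x y z => min x (y + z)) := by
    rw [← s1]
    exact SS_swap' P v (fun x y z => min y (x + z))
  have s3 : SS P v (fun x _ z => min x z) = SS P v (fun x y _ => min x y) :=
    SS_swap' P v (fun x y _ => min x y)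
  have s4 : SS P v (fun _ y z => min y z) = SS P v (fun x y _ => min x y) := by
    rw [← s3]
    exact SS_swap P v (fun x _ z => min x z)
  rw [e1, SS_add, SS_mul P v (3 * R) (fun x y z => min x (min y z)), SS_add, SS_add, SS_add,
    SS_mul P v (-2) (fun x y z => min x y + (min x z + min y z)), SS_add, SS_add, s1, s2, s3, s4]
  ring

/-- Symmetrised, homogeneous form of the criterion. -/
theorem moments' (p : ℝ) (hp0 : 0 ≤ p) (hp1 : p < 1) (P v : J → ℝ)
    (hP : ∀ j, 0 ≤ P j) (hP1 : 0 < ∑ j, P j) (hv0 : ∀ j, 0 ≤ v j) (hv1 : ∀ j, v j ≤ 1)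
    (h : 0 < SS P v (GG (p / (1 - p)))) :
    ∃ r : ℝ, 0 < r ∧ r * (1 - p) < 1 ∧
      Tendsto (fun n : ℕ => probSat n ⌊r * n⌋₊ p) atTop (𝓝 0) := by
  set N := ∑ j, P j with hN
  have hq1 : ∑ j, P j / N = 1 := by rw [← sum_div, ← hN, div_self hP1.ne']
  apply moments p hp0 hp1 (fun j => P j / N) v (fun j => div_nonneg (hP j) hP1.le) hq1 hv0 hv1
  have e3 : m3 (fun j => P j / N) v = SS P v (fun x y z => min x (min y z)) / N ^ 3 := by
    rw [← SS_scale]; rfl
  have eB : mB (fun j => P j / N) v = SS P v (fun x y z => min x (y + z)) / N ^ 3 := by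
    rw [← SS_scale]; rfl
  have e2 : m2 (fun j => P j / N) v = SS P v (fun x y _ => min x y) / N ^ 3 := by
    rw [← SS_scale]
    unfold m2 SS
    refine sum_congr rfl fun i _ => sum_congr rfl fun j _ => ?_
    simp only
    rw [← sum_mul, ← mul_sum, hq1, mul_one]
  rw [e3, eB, e2]
  rw [SS_GG _ P v hv0] at h
  have e : p / (1 - p) * (SS P v (fun x y z => min x (min y z)) / N ^ 3)
      + SS P v (fun x y z => min x (y + z)) / N ^ 3 - 2 * (SS P v (fun x y _ => min x y) / N ^ 3)
      = (3 * (p / (1 - p)) * SS P v (fun x y z => min x (min y z))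
      + 3 * SS P v (fun x y z => min x (y + z)) - 6 * SS P v (fun x y _ => min x y)) / (3 * N ^ 3) := by
    field_simp
    ring
  rw [e]
  positivity

end

end Pool.Agent.H986R2.TwoP
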